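import Pool.Agent.V8H53.Sta.Shift
import Pool.Agent.V8H53.Com.Main

/-!
# The action of the integers, bounded functions, the base case
-/

set_option autoImplicit false
set_option linter.unusedSectionVars false

open MeasureTheory Filter Topology Finset
open scoped ENNReal ComplexConjugate

namespace Pool.Agent.V8H53.Sta

open Pool.Agent.V8H53.Com (ce ce_meas ce_bound ce_inv ce_ae mean_tendsto ex_small_fam birkE)

variable {X : Type*} [MeasurableSpace X]

/-- integer powers of `T` -/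
def S (T : X ≃ᵐ X) (z : ℤ) (x : X) : X := ((T.toEquiv : Equiv.Perm X) ^ z) x

lemma S_zero (T : X ≃ᵐ X) (x : X) : S T 0 x = x := rfl

lemma S_add (T : X ≃ᵐ X) (y z : ℤ) (x : X) : S T (y + z) x = S T y (S T z x) := by
  unfold S
  rw [zpow_add]
  rfl

lemma S_nat (T : X ≃ᵐ X) (n : ℕ) (x : X) : S T n x = T^[n] x := by
  induction n generalizing x with
  | zero => rfl
  | succ n ih =>
    rw [Function.iterate_succ_apply, ← ih]
    push_cast
    rw [S_add]
    rfl

lemma S_neg_nat (T : X ≃ᵐ X) (n : ℕ) (x : X) : S T (-n) x = T.symm^[n] x := by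
  induction n generalizing x with
  | zero => rfl
  | succ n ih =>
    rw [Function.iterate_succ_apply, ← ih]
    have : (-((n + 1 : ℕ) : ℤ)) = -(n : ℤ) + -1 := by push_cast; ring
    rw [this, S_add]
    rfl

lemma S_mp {μ : Measure X} {T : X ≃ᵐ X} (hT : MeasurePreserving T μ μ) (z : ℤ) :
    MeasurePreserving (S T z) μ μ := by
  rcases Int.le_total 0 z with hz | hz
  · obtain ⟨n, rfl⟩ := Int.eq_ofNat_of_zero_le hz
    have : S T (n : ℤ) = T^[n] := funext fun x => S_nat T n x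
    rw [this]
    exact hT.iterate n
  · obtain ⟨n, hn⟩ := Int.eq_ofNat_of_zero_le (a := -z) (by omega)
    have hz' : z = -(n : ℤ) := by omega
    rw [hz']
    have : S T (-n : ℤ) = T.symm^[n] := funext fun x => S_neg_nat T n x
    rw [this]
    exact (hT.symm T).iterate n

lemma S_meas (T : X ≃ᵐ X) (z : ℤ) : Measurable (S T z) := by
  rcases Int.le_total 0 z with hz | hz
  · obtain ⟨n, rfl⟩ := Int.eq_ofNat_of_zero_le hz
    have : S T (n : ℤ) = T^[n] := funext fun x => S_nat T n x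
    rw [this]
    exact T.measurable.iterate n
  · obtain ⟨n, hn⟩ := Int.eq_ofNat_of_zero_le (a := -z) (by omega)
    have hz' : z = -(n : ℤ) := by omega
    rw [hz']
    have : S T (-n : ℤ) = T.symm^[n] := funext fun x => S_neg_nat T n x
    rw [this]
    exact T.symm.measurable.iterate n

/-- a function invariant under `T` is invariant under all integer powers -/
lemma S_inv {E : Type*} {T : X ≃ᵐ X} {g : X → E} (hg : ∀ x, g (T x) = g x) (z : ℤ) (x : X) :
    g (S T z x) = g x := by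
  have h1 : ∀ n : ℕ, ∀ x, g (S T n x) = g x := by
    intro n
    induction n with
    | zero => intro x; rfl
    | succ n ih =>
      intro x
      rw [S_nat, Function.iterate_succ_apply, ← S_nat, ih, hg]
  rcases Int.le_total 0 z with hz | hz
  · obtain ⟨n, rfl⟩ := Int.eq_ofNat_of_zero_le hz
    exact h1 n x
  · obtain ⟨n, hn⟩ := Int.eq_ofNat_of_zero_le (a := -z) (by omega)
    have h2 := h1 n (S T z x)
    rw [← S_add] at h2
    have : (n : ℤ) + z = 0 := by omega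
    rw [this, S_zero] at h2
    exact h2.symm

/-- asymptotic upper bounds, uniform over all windows at distance `O(max N H)` -/
def Bd (q : ℤ → ℤ → ℕ → ℕ → ℝ) (b : ℝ) : Prop :=
  ∀ C : ℕ, ∀ δ : ℝ, 0 < δ → ∃ M : ℕ, ∀ N H : ℕ, M ≤ N → M ≤ H → ∀ v u : ℤ,
    |v| ≤ (C * max N H : ℕ) → |u| ≤ (C * max N H : ℕ) → q v u N H ≤ b + δ

/-- sums over injective families of integers -/
lemma sum_inj_le {ψ : ℤ → ℝ} (hψ : ∀ i, 0 ≤ ψ i) {N m : ℕ} {F : ℕ → ℤ}
    (hF : ∀ i j, F i = F j → i = j) (hm : ∀ i < N, |F i| ≤ m) :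
    ∑ n ∈ range N, ψ (F n) ≤ ∑ j ∈ range (m + 1), (ψ j + ψ (-j)) := by
  classical
  have h1 : ∑ n ∈ range N, ψ (F n) = ∑ i ∈ (range N).image F, ψ i :=
    (Finset.sum_image fun i _ j _ h => hF i j h).symm
  have h2 : (range N).image F ⊆ (range (m + 1)).image (fun j : ℕ => (j : ℤ)) ∪
      (range (m + 1)).image (fun j : ℕ => -(j : ℤ)) := by
    intro i hi
    obtain ⟨n, hn, rfl⟩ := Finset.mem_image.1 hi
    have h3 := abs_le.1 (hm n (Finset.mem_range.1 hn))
    rw [Finset.mem_union, Finset.mem_image, Finset.mem_image]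
    rcases Int.le_total 0 (F n) with hz | hz
    · left
      refine ⟨(F n).toNat, Finset.mem_range.2 (by omega), by omega⟩
    · right
      refine ⟨(-(F n)).toNat, Finset.mem_range.2 (by omega), by omega⟩
  rw [h1]
  refine (Finset.sum_le_sum_of_subset_of_nonneg h2 fun i _ _ => hψ i).trans ?_
  have h4 : ∑ i ∈ (range (m + 1)).image (fun j : ℕ => (j : ℤ)) ∪
      (range (m + 1)).image (fun j : ℕ => -(j : ℤ)), ψ i
      ≤ ∑ i ∈ (range (m + 1)).image (fun j : ℕ => (j : ℤ)), ψ i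
        + ∑ i ∈ (range (m + 1)).image (fun j : ℕ => -(j : ℤ)), ψ i := by
    rw [← Finset.sum_union_inter]
    exact le_add_of_nonneg_right (Finset.sum_nonneg fun i _ => hψ i)
  refine h4.trans ?_
  rw [Finset.sum_image (fun i _ j _ h => by simpa using h),
    Finset.sum_image (fun i _ j _ h => by simpa using h), Finset.sum_add_distrib]

/-- a nonnegative average over a rectangle is bounded by an average over a segment -/
lemma pos_bound {ψ : ℤ → ℝ} (hψ : ∀ i, 0 ≤ ψ i) {a : ℤ} (ha : a ≠ 0) {C N H : ℕ} (hN : 0 < N)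
    (hH : 0 < H) {v u : ℤ} (hv : |v| ≤ (C * max N H : ℕ)) (hu : |u| ≤ (C * max N H : ℕ)) :
    (N : ℝ)⁻¹ * ((H : ℝ)⁻¹ * ∑ n ∈ range N, ∑ h ∈ range H, ψ (a * (v + n) + (u + h)))
      ≤ ((max N H : ℕ) : ℝ)⁻¹ * ∑ j ∈ range ((a.natAbs + 1) * (C + 1) * max N H + 1), (ψ j + ψ (-j)) := by
  have hN' : (0 : ℝ) < N := by exact_mod_cast hN
  have hH' : (0 : ℝ) < H := by exact_mod_cast hH
  obtain ⟨R, hR⟩ : ∃ R : ℕ, R = max N H := ⟨_, rfl⟩
  rw [← hR] at hv hu ⊢
  have hNR : N ≤ R := by omega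
  have hHR : H ≤ R := by omega
  have key : ∀ n h : ℕ, n < N → h < H → |a * (v + n) + (u + h)| ≤ ((a.natAbs + 1) * (C + 1) * R : ℕ) := by
    intro n h hn hh
    have h1 : |a * (v + n)| ≤ (a.natAbs * ((C + 1) * R) : ℕ) := by
      rw [abs_mul]
      have h2 : |v + (n : ℤ)| ≤ ((C + 1) * R : ℕ) := by
        refine (abs_add_le _ _).trans ?_
        have : |(n : ℤ)| ≤ R := by rw [Nat.abs_cast]; exact_mod_cast (hn.le.trans hNR)
        push_cast at hv ⊢
        linarith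
      push_cast
      push_cast at h2
      exact mul_le_mul_of_nonneg_left h2 (abs_nonneg a)
    have h4 : |u + (h : ℤ)| ≤ ((C + 1) * R : ℕ) := by
      refine (abs_add_le _ _).trans ?_
      have : |(h : ℤ)| ≤ R := by rw [Nat.abs_cast]; exact_mod_cast (hh.le.trans hHR)
      push_cast at hu ⊢
      linarith
    refine (abs_add_le _ _).trans ?_
    push_cast at h1 h4 ⊢
    linarith
  obtain ⟨Sg, hSg⟩ : ∃ s : ℝ, s = ∑ j ∈ range ((a.natAbs + 1) * (C + 1) * R + 1), (ψ j + ψ (-j)) := ⟨_, rfl⟩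
  rw [← hSg]
  rcases le_total N H with h | h
  · have hRH : R = H := by omega
    have h1 : ∀ n ∈ range N, ∑ h ∈ range H, ψ (a * (v + n) + (u + h)) ≤ Sg := by
      intro n hn
      rw [hSg]
      exact sum_inj_le hψ (F := fun h : ℕ => a * (v + n) + (u + h)) (fun i j hij => by
        omega) (fun i hi => key n i (Finset.mem_range.1 hn) hi)
    have h2 := Finset.sum_le_sum h1
    rw [Finset.sum_const, Finset.card_range, nsmul_eq_mul] at h2
    calc (N : ℝ)⁻¹ * ((H : ℝ)⁻¹ * ∑ n ∈ range N, ∑ h ∈ range H, ψ (a * (v + n) + (u + h)))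
        ≤ (N : ℝ)⁻¹ * ((H : ℝ)⁻¹ * (N * Sg)) := by gcongr
      _ = _ := by rw [hRH]; field_simp
  · have hRN : R = N := by omega
    have h1 : ∀ h ∈ range H, ∑ n ∈ range N, ψ (a * (v + n) + (u + h)) ≤ Sg := by
      intro h hh
      rw [hSg]
      exact sum_inj_le hψ (F := fun n : ℕ => a * (v + n) + (u + h)) (fun i j hij => by
        have h5 : a * ((i : ℤ) - j) = 0 := by linear_combination hij
        rcases mul_eq_zero.1 h5 with h6 | h6
        · exact absurd h6 ha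
        · omega) (fun i hi => key i h hi (Finset.mem_range.1 hh))
    have h2 := Finset.sum_le_sum h1
    rw [Finset.sum_const, Finset.card_range, nsmul_eq_mul, Finset.sum_comm] at h2
    calc (N : ℝ)⁻¹ * ((H : ℝ)⁻¹ * ∑ n ∈ range N, ∑ h ∈ range H, ψ (a * (v + n) + (u + h)))
        ≤ (N : ℝ)⁻¹ * ((H : ℝ)⁻¹ * (H * Sg)) := by gcongr
      _ = _ := by rw [hRN]; field_simp

lemma norm_D_le_real (G : ℤ → ℤ → ℂ) (v u : ℤ) (N H : ℕ) :
    ‖D G v u N H‖ ≤ (N : ℝ)⁻¹ * ((H : ℝ)⁻¹ * ∑ n ∈ range N, ∑ h ∈ range H, ‖G (v + n) (u + h)‖) := by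
  unfold D
  rw [norm_mul, norm_mul, norm_inv, norm_inv, Complex.norm_natCast, Complex.norm_natCast]
  gcongr
  exact (norm_sum_le _ _).trans (Finset.sum_le_sum fun n _ => norm_sum_le _ _)

lemma D_const (c : ℂ) (v u : ℤ) {N H : ℕ} (hN : 0 < N) (hH : 0 < H) :
    D (fun _ _ => c) v u N H = c := by
  have hN' : (N : ℂ) ≠ 0 := by exact_mod_cast hN.ne'
  have hH' : (H : ℂ) ≠ 0 := by exact_mod_cast hH.ne'
  unfold D
  simp only [Finset.sum_const, Finset.card_range, nsmul_eq_mul]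
  field_simp

/-- the values of `φ` at the points `S (a n + h) x` -/
def orb (T : X ≃ᵐ X) (φ : X → ℂ) (a : ℤ) (x : X) : ℤ → ℤ → ℂ := fun n h => φ (S T (a * n + h) x)

lemma D_orb_mean {T : X ≃ᵐ X} {φ : X → ℂ} (hb : ∀ x, ‖φ x‖ ≤ 1) (a : ℤ) (x : X) (v u : ℤ)
    {N H : ℕ} (hN : 0 < N) (hH : 0 < H) (L : ℕ) :
    ‖D (orb T φ a x) v u N H
      - D (fun n h => ((L + 1 : ℕ) : ℂ)⁻¹ * ∑ i ∈ range (L + 1), φ (T^[i] (S T (a * n + h) x))) v u N H‖
      ≤ 2 * (L + 1) / H := by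
  have hH' : (0 : ℝ) < H := by exact_mod_cast hH
  have hL : (0 : ℝ) < ((L + 1 : ℕ) : ℝ) := by positivity
  have hL' : ((L + 1 : ℕ) : ℂ) ≠ 0 := by exact_mod_cast (Nat.succ_ne_zero L)
  have h1 : D (fun n h => ((L + 1 : ℕ) : ℂ)⁻¹ * ∑ i ∈ range (L + 1), φ (T^[i] (S T (a * n + h) x))) v u N H
      = ((L + 1 : ℕ) : ℂ)⁻¹ * ∑ i ∈ range (L + 1), D (fun n h => orb T φ a x (n + 0) (h + (i : ℤ))) v u N H := by
    rw [D_const_mul, D_sum]
    congr 1
    refine Finset.sum_congr rfl fun i _ => ?_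
    congr 1
    funext n h
    unfold orb
    rw [← S_nat, ← S_add]
    congr 2
    ring
  have h2 : D (orb T φ a x) v u N H
      = ((L + 1 : ℕ) : ℂ)⁻¹ * ∑ i ∈ range (L + 1), D (orb T φ a x) v u N H := by
    rw [Finset.sum_const, Finset.card_range, nsmul_eq_mul, ← mul_assoc, inv_mul_cancel₀ hL', one_mul]
  rw [h1]
  conv_lhs => rw [h2]
  rw [← mul_sub, ← Finset.sum_sub_distrib, norm_mul, norm_inv, Complex.norm_natCast]
  have h3 : ‖∑ i ∈ range (L + 1), (D (orb T φ a x) v u N H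
      - D (fun n h => orb T φ a x (n + 0) (h + (i : ℤ))) v u N H)‖ ≤ ((L + 1 : ℕ) : ℝ) * (2 * (L + 1) / H) := by
    refine (norm_sum_le _ _).trans ?_
    refine (Finset.sum_le_sum (g := fun _ => 2 * ((L : ℝ) + 1) / H) fun i hi => ?_).trans ?_
    · rw [norm_sub_rev]
      have h4 := norm_D_shift (G := orb T φ a x) (B := 1) (fun n h => hb _) v u 0 (i : ℤ) hN hH
      refine h4.trans ?_
      have h5 : (i : ℝ) ≤ (L : ℝ) + 1 := by
        have := (Finset.mem_range.1 hi).le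
        exact_mod_cast this
      have h6 : |((i : ℤ) : ℝ)| = i := by simp
      rw [h6]
      simp only [Int.cast_zero, abs_zero, mul_zero, zero_div, zero_add, mul_one]
      gcongr
    · rw [Finset.sum_const, Finset.card_range, nsmul_eq_mul]
  calc ((L + 1 : ℕ) : ℝ)⁻¹ * _ ≤ ((L + 1 : ℕ) : ℝ)⁻¹ * (((L + 1 : ℕ) : ℝ) * (2 * (L + 1) / H)) := by gcongr
    _ = _ := by rw [← mul_assoc, inv_mul_cancel₀ hL.ne', one_mul]

/-- **The base case.** -/
lemma base {μ : Measure X} [IsProbabilityMeasure μ] {T : X ≃ᵐ X} (hT : MeasurePreserving T μ μ)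
    {a : ℤ} (ha : a ≠ 0) {φ : X → ℂ} (hφ : Measurable φ) (hb : ∀ x, ‖φ x‖ ≤ 1) :
    ∀ᵐ x ∂μ, Bd (fun v u N H => ‖D (orb T φ a x) v u N H - ce μ T 1 φ x‖) 0 := by
  obtain ⟨G, hG⟩ : ∃ G : ℕ → X → ℝ, ∀ L y, G L y =
    ‖((L + 1 : ℕ) : ℂ)⁻¹ * ∑ i ∈ range (L + 1), φ (T^[i] y) - ce μ T 1 φ y‖ := ⟨_, fun _ _ => rfl⟩
  have hGe : ∀ L, G L = fun y =>
    ‖((L + 1 : ℕ) : ℂ)⁻¹ * ∑ i ∈ range (L + 1), φ (T^[i] y) - ce μ T 1 φ y‖ := fun L => funext (hG L)
  have hGm : ∀ L, Measurable (G L) := by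
    intro L
    rw [hGe]
    exact ((((Finset.measurable_fun_sum _ fun i _ => hφ.comp (hT.measurable.iterate i)).const_mul _)).sub
        (ce_meas μ T 1 φ)).norm
  have hG0 : ∀ L y, 0 ≤ G L y := fun L y => by rw [hG]; exact norm_nonneg _
  have hGB : ∀ L y, G L y ≤ 2 := by
    intro L y
    rw [hG]
    refine (norm_sub_le _ _).trans ?_
    have h1 := ce_bound μ T 1 zero_le_one φ y
    have h2 : ‖((L + 1 : ℕ) : ℂ)⁻¹ * ∑ i ∈ range (L + 1), φ (T^[i] y)‖ ≤ 1 := by
      rw [norm_mul, norm_inv, Complex.norm_natCast]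
      have h3 : ‖∑ i ∈ range (L + 1), φ (T^[i] y)‖ ≤ ((L + 1 : ℕ) : ℝ) * 1 := by
        refine (norm_sum_le_of_le _ fun i _ => hb _).trans ?_
        rw [Finset.sum_const, Finset.card_range, nsmul_eq_mul]
      have h4 : (0:ℝ) < ((L + 1 : ℕ) : ℝ) := by positivity
      rw [inv_mul_le_iff₀ h4]
      exact h3
    linarith
  have hlim : Tendsto (fun L => ∫ y, G L y ∂μ) atTop (𝓝 0) := by
    have := mean_tendsto hT φ hφ 1 zero_le_one hb
    refine this.congr fun L => ?_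
    refine integral_congr_ae (Eventually.of_forall fun y => ?_)
    exact (hG L y).symm
  have hfam := ex_small_fam (Finset.univ : Finset Bool) (fun i : Bool => if i then (T : X → X) else (T.symm : X → X))
    (fun i => by cases i; exacts [hT.symm T, hT]) (fun _ => 1) (fun _ => G) (fun _ => hGm) 2
    (fun _ => hG0) (fun _ => hGB) (fun _ => hlim)
  filter_upwards [hfam] with x hx
  intro C δ hδ
  obtain ⟨c', hc'⟩ : ∃ c' : ℕ, c' = (a.natAbs + 1) * (C + 1) := ⟨_, rfl⟩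
  have hc0 : 0 < c' := by rw [hc']; positivity
  have hc0' : (0 : ℝ) < c' := by exact_mod_cast hc0
  obtain ⟨L, hL⟩ := hx (δ / (8 * c')) (by positivity)
  obtain ⟨M0, hM0⟩ := Filter.eventually_atTop.1 hL
  obtain ⟨M1, hM1⟩ := exists_nat_gt (16 / δ)
  obtain ⟨M2, hM2⟩ := exists_nat_gt (8 * (L + 1) / δ)
  refine ⟨M0 + M1 + M2 + 1, fun N H hN hH v u hv hu => ?_⟩
  have hNp : 0 < N := by omega
  have hHp : 0 < H := by omega
  have hH' : (0 : ℝ) < H := by exact_mod_cast hHp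
  have e1 := D_orb_mean (T := T) hb a x v u hNp hHp L
  have e2 : 2 * ((L : ℝ) + 1) / H ≤ δ / 4 := by
    rw [div_le_iff₀ hH']
    have h1 : (M2 : ℝ) ≤ H := by exact_mod_cast (by omega : M2 ≤ H)
    have h2 : 8 * ((L : ℝ) + 1) / δ < H := hM2.trans_le h1
    rw [div_lt_iff₀ hδ] at h2
    linarith
  have e3 : ‖D (fun n h => ((L + 1 : ℕ) : ℂ)⁻¹ * ∑ i ∈ range (L + 1), φ (T^[i] (S T (a * n + h) x))) v u N H
      - ce μ T 1 φ x‖ ≤ δ / 2 := by
    conv_lhs => rw [← D_const (ce μ T 1 φ x) v u hNp hHp]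
    rw [D_sub]
    refine (norm_D_le_real _ _ _ _ _).trans ?_
    have h1 : ∀ n h : ℤ, ‖((L + 1 : ℕ) : ℂ)⁻¹ * ∑ i ∈ range (L + 1), φ (T^[i] (S T (a * n + h) x))
        - ce μ T 1 φ x‖ = (fun i : ℤ => G L (S T i x)) (a * n + h) := by
      intro n h
      simp only [hG]
      rw [S_inv (ce_inv μ T 1 φ)]
    simp only [h1]
    have h2 := pos_bound (ψ := fun i : ℤ => G L (S T i x)) (fun i => hG0 _ _) ha hNp hHp hv hu
    refine h2.trans ?_
    rw [← hc']
    obtain ⟨R, hR⟩ : ∃ R : ℕ, R = max N H := ⟨_, rfl⟩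
    rw [← hR]
    have hRp : 0 < R := by omega
    have hR' : (0 : ℝ) < R := by exact_mod_cast hRp
    have hm : M0 ≤ c' * R := by
      have : R ≤ c' * R := Nat.le_mul_of_pos_left _ hc0
      omega
    have hmp : (0 : ℝ) < ((c' * R : ℕ) : ℝ) := by
      have : 0 < c' * R := Nat.mul_pos hc0 hRp
      exact_mod_cast this
    have h3 := hM0 (c' * R) hm
    have h4 := h3 true (Finset.mem_univ _)
    have h5 := h3 false (Finset.mem_univ _)
    simp only [if_true, one_mul] at h4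
    simp only [Bool.false_eq_true, if_false, one_mul] at h5
    rw [inv_mul_le_iff₀ hmp] at h4 h5
    have h6 : ∑ j ∈ range (c' * R + 1), (G L (S T (j : ℤ) x) + G L (S T (-(j : ℤ)) x))
        ≤ 2 * (((c' * R : ℕ) : ℝ) * (δ / (8 * c'))) + 4 := by
      rw [Finset.sum_add_distrib, Finset.sum_range_succ', Finset.sum_range_succ']
      have g1 : ∑ k ∈ range (c' * R), G L (S T ((k + 1 : ℕ) : ℤ) x)
          = ∑ k ∈ range (c' * R), G L (T^[k + 1] x) :=
        Finset.sum_congr rfl fun k _ => by rw [S_nat]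
      have g2 : ∑ k ∈ range (c' * R), G L (S T (-((k + 1 : ℕ) : ℤ)) x)
          = ∑ k ∈ range (c' * R), G L (T.symm^[k + 1] x) :=
        Finset.sum_congr rfl fun k _ => by rw [S_neg_nat]
      rw [g1, g2]
      have g3 := hGB L (S T ((0 : ℕ) : ℤ) x)
      have g4 := hGB L (S T (-((0 : ℕ) : ℤ)) x)
      exact (add_le_add (add_le_add h4 g3) (add_le_add h5 g4)).trans (le_of_eq (by ring))
    calc (R : ℝ)⁻¹ * ∑ j ∈ range (c' * R + 1), (G L (S T (j : ℤ) x) + G L (S T (-(j : ℤ)) x))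
        ≤ (R : ℝ)⁻¹ * (2 * (((c' * R : ℕ) : ℝ) * (δ / (8 * c'))) + 4) := by gcongr
      _ = δ / 4 + 4 / R := by
        push_cast
        field_simp
        ring
      _ ≤ δ / 4 + δ / 4 := by
        have h7 : (M1 : ℝ) ≤ R := by exact_mod_cast (by omega : M1 ≤ R)
        have h8 : 16 / δ < R := hM1.trans_le h7
        have h9 : 4 / (R : ℝ) ≤ δ / 4 := by
          rw [div_lt_iff₀ hδ] at h8
          rw [div_le_iff₀ hR']
          linarith
        linarith
      _ = δ / 2 := by ring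
  calc ‖D (orb T φ a x) v u N H - ce μ T 1 φ x‖
      = ‖(D (orb T φ a x) v u N H
        - D (fun n h => ((L + 1 : ℕ) : ℂ)⁻¹ * ∑ i ∈ range (L + 1), φ (T^[i] (S T (a * n + h) x))) v u N H)
        + (D (fun n h => ((L + 1 : ℕ) : ℂ)⁻¹ * ∑ i ∈ range (L + 1), φ (T^[i] (S T (a * n + h) x))) v u N H
          - ce μ T 1 φ x)‖ := by congr 1; ring
    _ ≤ δ / 4 + δ / 2 := (norm_add_le _ _).trans (add_le_add (e1.trans e2) e3)
    _ ≤ 0 + δ := by linarith

end Pool.Agent.V8H53.Sta
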