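import Pool.Agent.V8H53.Sta.Est

/-!
# The core estimate, and weakly mixing systems
-/

set_option autoImplicit false
set_option linter.unusedSectionVars false

open MeasureTheory Filter Topology Finset
open scoped ENNReal ComplexConjugate

namespace Pool.Agent.V8H53.Sta

open Pool.Agent.V8H53.Com (ce ce_meas ce_bound ce_inv ce_ae mean_tendsto ex_small_fam birkE)

variable {X : Type*} [MeasurableSpace X] {μ : Measure X} [IsProbabilityMeasure μ] {T : X ≃ᵐ X}

lemma BdW_mono {V : ℤ → ℤ → ℂ} {c : ℤ} {b : ℝ} (h : ∀ ε : ℝ, 0 < ε → ∃ b', b' ≤ b + ε ∧ BdW V c b') :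
    BdW V c b := by
  intro C δ hδ
  obtain ⟨b', hb', h'⟩ := h (δ / 2) (half_pos hδ)
  obtain ⟨M, hM⟩ := h' C (δ / 2) (half_pos hδ)
  refine ⟨M, fun N H hN hH v u hv hu W hW hc => ?_⟩
  have := hM N H hN hH v u hv hu W hW hc
  linarith

/-- small bounds in the mean give small bounds almost everywhere -/
lemma small_ae {p : ℕ} {β : ℕ → X → ℝ} (hm : ∀ j, Measurable (β j)) (h01 : ∀ j x, 0 ≤ β j x ∧ β j x ≤ 1)
    (hint : ∀ j : ℕ, ∫ x, β j x ^ p ∂μ ≤ 1 / ((j : ℝ) + 1)) :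
    ∀ᵐ x ∂μ, ∀ ε : ℝ, 0 < ε → ∃ j, β j x < ε := by
  have key : ∀ i : ℕ, ∀ᵐ x ∂μ, ∃ j, β j x < 1 / ((i : ℝ) + 1) := by
    intro i
    rw [ae_iff, ← nonpos_iff_eq_zero]
    obtain ⟨ε, hε⟩ : ∃ ε : ℝ, ε = 1 / ((i : ℝ) + 1) := ⟨_, rfl⟩
    have hε0 : 0 < ε := by rw [hε]; positivity
    rw [← hε]
    have hεp : 0 < ε ^ p := by positivity
    have h1 : Tendsto (fun j : ℕ => ENNReal.ofReal (1 / ((j : ℝ) + 1) / ε ^ p)) atTop (𝓝 0) := by
      have h2 := tendsto_one_div_add_atTop_nhds_zero_nat (𝕜 := ℝ)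
      have h3 := h2.div_const (ε ^ p)
      rw [zero_div] at h3
      have h4 := ENNReal.tendsto_ofReal h3
      rw [ENNReal.ofReal_zero] at h4
      exact h4
    refine ge_of_tendsto' h1 fun j => ?_
    have hsub : {x | ¬ ∃ j, β j x < ε} ⊆ {x | ε ^ p ≤ β j x ^ p} := by
      intro x hx
      have : ε ≤ β j x := by
        by_contra hcon
        exact hx ⟨j, not_le.1 hcon⟩
      exact pow_le_pow_left₀ hε0.le this p
    have hi : Integrable (fun x => β j x ^ p) μ := intgR ((hm j).pow_const p) (C := 1) fun x => by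
      rw [abs_of_nonneg (pow_nonneg (h01 j x).1 p)]
      exact pow_le_one₀ (h01 j x).1 (h01 j x).2
    have h5 := mul_meas_ge_le_integral_of_nonneg (μ := μ) (f := fun x => β j x ^ p)
      (Eventually.of_forall fun x => pow_nonneg (h01 j x).1 p) hi (ε ^ p)
    have h6 : μ.real {x | ε ^ p ≤ β j x ^ p} ≤ 1 / ((j : ℝ) + 1) / ε ^ p := by
      rw [le_div_iff₀ hεp, mul_comm]
      exact h5.trans (hint j)
    calc μ {x | ¬ ∃ j, β j x < ε} ≤ μ {x | ε ^ p ≤ β j x ^ p} := measure_mono hsub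
      _ = ENNReal.ofReal (μ.real {x | ε ^ p ≤ β j x ^ p}) := (ofReal_measureReal (measure_ne_top _ _)).symm
      _ ≤ _ := ENNReal.ofReal_le_ofReal h6
  filter_upwards [ae_all_iff.2 key] with x hx ε hε
  obtain ⟨i, hi⟩ := exists_nat_one_div_lt hε
  obtain ⟨j, hj⟩ := hx i
  exact ⟨j, hj.trans hi⟩

/-- **The core estimate.** -/
theorem core (hT : MeasurePreserving T μ μ) {B : Finset ℤ} (hB : 2 ≤ B.card) {a : ℤ} (haB : a ∈ B)
    (ha : a ≠ 0) {w : ℤ → X → ℂ} (hw : ∀ b, Measurable (w b)) (hw1 : ∀ b x, ‖w b x‖ ≤ 1)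
    (hQ : Q μ T 1 (B.card - 1) (w a) = 0) : ∀ᵐ x ∂μ, BdW (P T B w x) 0 0 := by
  obtain ⟨B', hB'⟩ : ∃ B' : Finset ℤ, B' = B.erase a := ⟨_, rfl⟩
  have haB' : a ∉ B' := by rw [hB']; exact Finset.notMem_erase a B
  have hins : insert a B' = B := by rw [hB']; exact Finset.insert_erase haB
  have hcard : B'.card + 1 = B.card := by rw [hB']; exact Finset.card_erase_add_one haB
  have hpos : 0 < B'.card := by omega
  have hne : B'.Nonempty := Finset.card_pos.1 hpos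
  obtain ⟨A, hA, d, hd, H⟩ := ind (μ := μ) hT ha B' hne haB'
  obtain ⟨e, he⟩ : ∃ e : ℝ, e = 2 * (a.natAbs + 1) := ⟨_, rfl⟩
  have he0 : 0 ≤ e := by rw [he]; positivity
  have hQd : Q μ T d (B'.card - 1 + 1) (w a) ≤ 0 := by
    refine (Q_dil hT hd (B'.card - 1) (hw a) (hw1 a)).trans ?_
    have h1 : B'.card - 1 + 1 = B.card - 1 := by omega
    rw [h1, hQ, mul_zero]
  have main : ∀ η : ℝ, 0 < η → ∃ β : X → ℝ, Measurable β ∧ (∀ x, 0 ≤ β x ∧ β x ≤ 1) ∧
      (∀ᵐ x ∂μ, BdW (P T B w x) 0 (β x)) ∧ ∫ x, β x ^ 2 ^ B'.card ∂μ ≤ η := by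
    intro η hη
    have hη' : 0 < η / (2 * (A * e + 1)) := by positivity
    obtain ⟨K, hKq, hKp⟩ := ((avg_Dl (μ := μ) hT d (B'.card - 1) ha (hw1 a) hη').and
      (Filter.eventually_gt_atTop 0)).exists
    rw [← he] at hKq
    choose β hβm hβ01 hβbd hβint using fun r : ℤ => H (wD T 0 r w) (fun b => meas_Dl (hw b) _)
      (fun b => norm_Dl_le1 (hw1 b) _) (η / 2) (half_pos hη)
    refine ⟨fun x => ((K : ℝ) ^ 2)⁻¹ * ∑ k ∈ range K, ∑ k' ∈ range K, β ((k' : ℤ) - k) x,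
      ?_, mean_01 hβ01 hKp, ?_, ?_⟩
    · exact (Finset.measurable_fun_sum _ fun k _ => Finset.measurable_fun_sum _ fun k' _ => hβm _).const_mul _
    · filter_upwards [ae_all_iff.2 hβbd] with x hx
      refine step (β := fun r => β r x) (norm_P_le _ hw1 x) (fun r => ?_) hKp
      rw [Cor_P, ← hins]
      exact hx r
    · have hβint' : ∀ r : ℤ, ∫ x, β r x ^ 2 ^ B'.card ∂μ ≤ A * Q μ T d (B'.card - 1) (Dl T (a * r) (w a)) + η / 2 := by
        intro r
        have h1 := hβint r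
        have h2 : wD T 0 r w a = Dl T (a * r) (w a) := by
          unfold wD
          rw [sub_zero]
        rw [h2] at h1
        exact h1
      have h2 := mean_int (μ := μ) hβm hβ01 hKp (2 ^ B'.card)
        (q := fun r => Q μ T d (B'.card - 1) (Dl T (a * r) (w a))) (A := A) (η := η / 2) hβint'
      refine h2.trans ?_
      have h4 := mul_le_mul_of_nonneg_left hKq hA
      have h5 : A * (e * (Q μ T d (B'.card - 1 + 1) (w a) + η / (2 * (A * e + 1)))) ≤ η / 2 := by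
        have h6 : A * e * (η / (2 * (A * e + 1))) ≤ η / 2 := by
          rw [← mul_div_assoc, div_le_div_iff₀ (by positivity) (by norm_num)]
          nlinarith [mul_nonneg hA he0]
        have h7 : A * e * Q μ T d (B'.card - 1 + 1) (w a) ≤ 0 :=
          mul_nonpos_of_nonneg_of_nonpos (mul_nonneg hA he0) hQd
        nlinarith
      linarith
  choose β hβm hβ01 hβW hβint using fun j : ℕ => main (1 / ((j : ℝ) + 1)) (by positivity)
  filter_upwards [ae_all_iff.2 hβW, small_ae (μ := μ) hβm hβ01 hβint] with x hx hs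
  refine BdW_mono fun ε hε => ?_
  obtain ⟨j, hj⟩ := hs ε hε
  exact ⟨β j x, by linarith, hx j⟩

/-! ### Weakly mixing systems -/

lemma Av_eq (K : ℕ) (g : X → ℂ) (x : X) : Av T 1 K g x = (K : ℂ)⁻¹ * ∑ k ∈ range K, g (T^[k] x) := by
  unfold Av
  simp only [one_mul, S_nat]

/-- the first seminorm of an ergodic map -/
lemma Q_erg (hT : Ergodic T μ) {g : X → ℂ} (hg : Measurable g) (hC : ∀ x, ‖g x‖ ≤ 1) :
    Q μ T 1 0 g ≤ ‖∫ x, g x ∂μ‖ ^ 2 := by
  have hTm : MeasurePreserving T μ μ := hT.toMeasurePreserving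
  obtain ⟨E, hE⟩ : ∃ E : X → ℂ, E = ce μ T 1 g := ⟨_, rfl⟩
  have hEm : Measurable E := by rw [hE]; exact ce_meas μ T 1 g
  have hE1 : ∀ x, ‖E x‖ ≤ 1 := by rw [hE]; exact ce_bound μ T 1 zero_le_one g
  have hEae : E =ᵐ[μ] μ[g | MeasurableSpace.invariants T] := by rw [hE]; exact ce_ae μ T 1 g hC
  have hconst : ∃ c : ℂ, E =ᵐ[μ] fun _ => c := by
    refine hT.ae_eq_const_of_ae_eq_comp_ae hEm.aestronglyMeasurable (Eventually.of_forall fun x => ?_)
    rw [hE]
    exact ce_inv μ T 1 g x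
  obtain ⟨c, hc⟩ := hconst
  have hcint : c = ∫ x, g x ∂μ := by
    rw [← integral_condExp (MeasurableSpace.invariants_le T), ← integral_congr_ae hEae, integral_congr_ae hc]
    simp
  have hlim := mean_tendsto hTm g hg 1 zero_le_one hC
  rw [← hE] at hlim
  refine ls_le (A := 0) (fun R => integral_nonneg fun x => by positivity) fun δ hδ => ?_
  have h1 := hlim.eventually (gt_mem_nhds (half_pos hδ))
  obtain ⟨L0, hL0⟩ := Filter.eventually_atTop.1 h1
  filter_upwards [Filter.eventually_ge_atTop (L0 + 1)] with K hK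
  obtain ⟨L, rfl⟩ : ∃ L, K = L + 1 := ⟨K - 1, by omega⟩
  have h2 := hL0 L (by omega)
  have h3 : ∀ x, ‖Av T 1 (L + 1) g x‖ ^ 2 ≤ ‖E x‖ ^ 2 +
      2 * ‖((L + 1 : ℕ) : ℂ)⁻¹ * ∑ i ∈ range (L + 1), g (T^[i] x) - E x‖ := by
    intro x
    rw [← Av_eq]
    have e1 := norm_sub_norm_le (Av T 1 (L + 1) g x) (E x)
    have e2 := norm_Av_le (T := T) zero_le_one hC 1 (L + 1) x
    have e3 := hE1 x
    have e4 := norm_nonneg (Av T 1 (L + 1) g x)
    have e5 := norm_nonneg (E x)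
    have e6 := norm_nonneg (Av T 1 (L + 1) g x - E x)
    nlinarith
  have hi1 : Integrable (fun x => ‖E x‖ ^ 2) μ := intgR (hEm.norm.pow_const 2) (C := 1) fun x => by
    rw [abs_of_nonneg (by positivity)]
    exact pow_le_one₀ (norm_nonneg _) (hE1 x)
  have hi2 : Integrable (fun x => ‖((L + 1 : ℕ) : ℂ)⁻¹ * ∑ i ∈ range (L + 1), g (T^[i] x) - E x‖) μ := by
    have h4 : (fun x => ‖((L + 1 : ℕ) : ℂ)⁻¹ * ∑ i ∈ range (L + 1), g (T^[i] x) - E x‖)
        = fun x => ‖Av T 1 (L + 1) g x - E x‖ := by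
      funext x
      rw [Av_eq]
    rw [h4]
    refine intgR ((meas_Av hg 1 (L + 1)).sub hEm).norm (C := 1 + 1) fun x => ?_
    rw [abs_of_nonneg (norm_nonneg _)]
    exact (norm_sub_le _ _).trans (add_le_add (norm_Av_le zero_le_one hC 1 (L + 1) x) (hE1 x))
  have hval : ∫ x, ‖E x‖ ^ 2 ∂μ = ‖∫ x, g x ∂μ‖ ^ 2 := by
    have h5 : (fun x => ‖E x‖ ^ 2) =ᵐ[μ] fun _ => ‖c‖ ^ 2 := by
      filter_upwards [hc] with x hx
      rw [hx]
    rw [integral_congr_ae h5, hcint]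
    simp
  calc ∫ x, ‖Av T 1 (L + 1) g x‖ ^ 2 ∂μ
      ≤ ∫ x, (‖E x‖ ^ 2 + 2 * ‖((L + 1 : ℕ) : ℂ)⁻¹ * ∑ i ∈ range (L + 1), g (T^[i] x) - E x‖) ∂μ :=
        integral_mono_of_nonneg (Eventually.of_forall fun x => by positivity) (hi1.add (hi2.const_mul 2))
          (Eventually.of_forall h3)
    _ = ‖∫ x, g x ∂μ‖ ^ 2 + 2 * ∫ x, ‖((L + 1 : ℕ) : ℂ)⁻¹ * ∑ i ∈ range (L + 1), g (T^[i] x) - E x‖ ∂μ := by
        rw [integral_add hi1 (hi2.const_mul 2), hval, integral_const_mul]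
    _ ≤ ‖∫ x, g x ∂μ‖ ^ 2 + δ := by linarith

lemma S_prod (z : ℤ) (p : X × X) :
    S (MeasurableEquiv.prodCongr T T) z p = (S T z p.1, S T z p.2) := by
  have h1 : ∀ n : ℕ, ∀ p : X × X, S (MeasurableEquiv.prodCongr T T) n p = (S T n p.1, S T n p.2) := by
    intro n
    induction n with
    | zero => intro p; rfl
    | succ n ih =>
      intro p
      rw [S_nat, Function.iterate_succ_apply, ← S_nat, ih]
      rw [S_nat, S_nat, S_nat, S_nat, Function.iterate_succ_apply, Function.iterate_succ_apply]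
      rfl
  rcases Int.le_total 0 z with hz | hz
  · obtain ⟨n, rfl⟩ := Int.eq_ofNat_of_zero_le hz
    exact h1 n p
  · obtain ⟨n, hn⟩ := Int.eq_ofNat_of_zero_le (a := -z) (by omega)
    have hz0 : (n : ℤ) + z = 0 := by omega
    have hz1 : z + (n : ℤ) = 0 := by omega
    have h2 := h1 n (S T z p.1, S T z p.2)
    simp only at h2
    rw [← S_add, ← S_add, hz0, S_zero, S_zero] at h2
    have h3 : p = S (MeasurableEquiv.prodCongr T T) n (S T z p.1, S T z p.2) := by rw [h2]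
    conv_lhs => rw [h3]
    rw [← S_add, hz1, S_zero]

/-- **Weak mixing**: the seminorms are bounded by the integral. -/
theorem Q_wm (hwm : Ergodic (Prod.map T T) (μ.prod μ)) (t : ℕ) :
    ∀ {g : X → ℂ}, Measurable g → (∀ x, ‖g x‖ ≤ 1) → Q μ T 1 t g ≤ ‖∫ x, g x ∂μ‖ ^ 2 := by
  have hcoe : (⇑(MeasurableEquiv.prodCongr T T) : X × X → X × X) = Prod.map T T := rfl
  have hwm' : Ergodic (MeasurableEquiv.prodCongr T T) (μ.prod μ) := by rw [hcoe]; exact hwm
  have hTe : Ergodic T μ := by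
    exact MeasurePreserving.ergodic_of_ergodic_semiconj (g := Prod.fst) (f := Prod.map T T) (μ := μ.prod μ)
      measurePreserving_fst hwm T.measurable (fun _ => rfl)
  induction t with
  | zero => exact fun hg hC => Q_erg hTe hg hC
  | succ t ih =>
    intro g hg hC
    have h0 : ∀ R : ℕ, 0 ≤ (R : ℝ)⁻¹ * ∑ r ∈ range R, Q μ T 1 t (Dl T r g) := fun R =>
      mul_nonneg (by positivity) (Finset.sum_nonneg fun r _ => Q_nonneg 1 t (norm_Dl_le1 hC r))
    have hQe : Q μ T 1 (t + 1) g = limsup (fun R : ℕ => (R : ℝ)⁻¹ * ∑ r ∈ range R, Q μ T 1 t (Dl T r g)) atTop := rfl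
    rw [hQe]
    refine ls_le h0 fun δ hδ => ?_
    obtain ⟨χ, hχ⟩ : ∃ χ : X × X → ℂ, χ = fun p => g p.1 * conj (g p.2) := ⟨_, rfl⟩
    have hcm : Measurable fun z : ℂ => conj z := RCLike.continuous_conj.measurable
    have hχm : Measurable χ := by
      rw [hχ]
      exact (hg.comp measurable_fst).mul (hcm.comp (hg.comp measurable_snd))
    have hχ1 : ∀ p, ‖χ p‖ ≤ 1 := by
      intro p
      rw [hχ]
      simp only
      rw [norm_mul, RCLike.norm_conj]
      exact mul_le_one₀ (hC _) (norm_nonneg _) (hC _)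
    have hχint : ‖∫ p, χ p ∂(μ.prod μ)‖ ^ 2 ≤ ‖∫ x, g x ∂μ‖ ^ 2 := by
      rw [hχ, integral_prod_mul (fun x => g x) (fun y => conj (g y)), integral_conj, norm_mul, RCLike.norm_conj]
      have h1 : ‖∫ x, g x ∂μ‖ ≤ 1 := by
        have := norm_integral_le_of_norm_le_const (μ := μ) (f := g) (C := 1) (Eventually.of_forall hC)
        simpa using this
      have h2 := norm_nonneg (∫ x, g x ∂μ)
      have h3 : ‖∫ x, g x ∂μ‖ * ‖∫ x, g x ∂μ‖ ≤ ‖∫ x, g x ∂μ‖ := by nlinarith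
      exact pow_le_pow_left₀ (by positivity) h3 2
    have hq := (Q_erg hwm' hχm hχ1).trans hχint
    filter_upwards [corr_le (μ := μ.prod μ) (T := MeasurableEquiv.prodCongr T T)
      hwm'.toMeasurePreserving hχm hχ1 hδ] with R hR
    have h4 : ∀ s : ℤ, Q μ T 1 t (Dl T s g) ≤ (∫ p, Dl (MeasurableEquiv.prodCongr T T) s χ p ∂(μ.prod μ)).re := by
      intro s
      refine (ih (meas_Dl hg s) (norm_Dl_le1 hC s)).trans (le_of_eq ?_)
      have h5 : ∀ p : X × X, Dl (MeasurableEquiv.prodCongr T T) s χ p = Dl T s g p.1 * conj (Dl T s g p.2) := by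
        intro p
        unfold Dl
        rw [hχ, S_prod]
        simp only [map_mul, RCLike.conj_conj]
        ring
      simp only [h5]
      rw [integral_prod_mul (fun x => Dl T s g x) (fun y => conj (Dl T s g y)), integral_conj, Complex.mul_conj,
        Complex.ofReal_re, Complex.normSq_eq_norm_sq]
    calc (R : ℝ)⁻¹ * ∑ r ∈ range R, Q μ T 1 t (Dl T r g)
        ≤ (R : ℝ)⁻¹ * ∑ r ∈ range R, (∫ p, Dl (MeasurableEquiv.prodCongr T T) r χ p ∂(μ.prod μ)).re := by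
          gcongr with r _
          exact h4 r
      _ ≤ _ := by linarith

end Pool.Agent.V8H53.Sta
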