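import Pool.Agent.V8H53.Sta.Fun

/-!
# The innermost step of the seminorms is irrelevant
-/

set_option autoImplicit false
set_option linter.unusedSectionVars false

open MeasureTheory Filter Topology Finset
open scoped ENNReal ComplexConjugate

namespace Pool.Agent.V8H53.Sta

variable {X : Type*} [MeasurableSpace X] {μ : Measure X} [IsProbabilityMeasure μ] {T : X ≃ᵐ X}

lemma Dl_comm (r s : ℤ) (g : X → ℂ) : Dl T r (Dl T s g) = Dl T s (Dl T r g) := by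
  funext x
  unfold Dl
  simp only [map_mul, RCLike.conj_conj, ← S_add]
  rw [add_comm s r]
  ring

lemma Dl_zero (g : X → ℂ) (x : X) : Dl T 0 g x = ((‖g x‖ ^ 2 : ℝ) : ℂ) := by
  unfold Dl
  rw [S_zero, Complex.mul_conj, Complex.normSq_eq_norm_sq]

lemma intg {g : X → ℂ} (hg : Measurable g) {C : ℝ} (hC : ∀ x, ‖g x‖ ≤ C) : Integrable g μ :=
  Integrable.of_bound hg.aestronglyMeasurable C (Eventually.of_forall hC)

lemma intgR {g : X → ℝ} (hg : Measurable g) {C : ℝ} (hC : ∀ x, |g x| ≤ C) : Integrable g μ :=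
  Integrable.of_bound hg.aestronglyMeasurable C (Eventually.of_forall hC)

lemma int_sq (hT : MeasurePreserving T μ μ) (d : ℤ) (K : ℕ) {g : X → ℂ} (hg : Measurable g)
    (hC : ∀ x, ‖g x‖ ≤ 1) :
    ∫ x, ‖Av T d K g x‖ ^ 2 ∂μ = ((K : ℝ) ^ 2)⁻¹ * ∑ k ∈ range K, ∑ k' ∈ range K,
      (∫ x, Dl T (d * ((k' : ℤ) - k)) g x ∂μ).re := by
  have h1 : ∀ x, ((‖Av T d K g x‖ ^ 2 : ℝ) : ℂ) = ((K : ℂ) ^ 2)⁻¹ * ∑ k ∈ range K, ∑ k' ∈ range K,
      Dl T (d * ((k' : ℤ) - k)) g (S T (d * k) x) := by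
    intro x
    rw [← Complex.normSq_eq_norm_sq, ← Complex.mul_conj]
    have h2 : ∀ k k' : ℕ, Dl T (d * ((k' : ℤ) - k)) g (S T (d * k) x)
        = g (S T (d * k) x) * conj (g (S T (d * k') x)) := by
      intro k k'
      unfold Dl
      rw [← S_add]
      have : d * ((k' : ℤ) - k) + d * k = d * k' := by ring
      rw [this]
    simp only [h2]
    unfold Av
    rw [map_mul, map_inv₀, Complex.conj_natCast, map_sum, ← Finset.sum_mul_sum, inv_eq_one_div,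
      inv_eq_one_div]
    ring
  have h3 : ((∫ x, ‖Av T d K g x‖ ^ 2 ∂μ : ℝ) : ℂ) = ((K : ℂ) ^ 2)⁻¹ * ∑ k ∈ range K, ∑ k' ∈ range K,
      ∫ x, Dl T (d * ((k' : ℤ) - k)) g x ∂μ := by
    rw [← integral_complex_ofReal]
    have h4 : (fun x => ((‖Av T d K g x‖ ^ 2 : ℝ) : ℂ)) = fun x => ((K : ℂ) ^ 2)⁻¹ *
      ∑ k ∈ range K, ∑ k' ∈ range K, Dl T (d * ((k' : ℤ) - k)) g (S T (d * k) x) := funext h1
    have h5 : ∫ x, ((‖Av T d K g x‖ ^ 2 : ℝ) : ℂ) ∂μ = ∫ x, ((K : ℂ) ^ 2)⁻¹ *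
      ∑ k ∈ range K, ∑ k' ∈ range K, Dl T (d * ((k' : ℤ) - k)) g (S T (d * k) x) ∂μ := by rw [h4]
    refine h5.trans ?_
    rw [integral_const_mul]
    congr 1
    have hi : ∀ k k' : ℕ, Integrable (fun x => Dl T (d * ((k' : ℤ) - k)) g (S T (d * k) x)) μ := by
      intro k k'
      exact intg ((meas_Dl hg _).comp (S_meas T _)) (fun x => norm_Dl_le1 hC _ _)
    rw [integral_finsetSum _ fun k _ => integrable_finsetSum _ fun k' _ => hi k k']
    refine Finset.sum_congr rfl fun k _ => ?_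
    rw [integral_finsetSum _ fun k' _ => hi k k']
    refine Finset.sum_congr rfl fun k' _ => ?_
    exact int_S hT (d * k) (Dl T (d * ((k' : ℤ) - k)) g)
  have h6 := congrArg Complex.re h3
  rw [Complex.ofReal_re] at h6
  rw [h6]
  have h7 : ((K : ℂ) ^ 2)⁻¹ = ((((K : ℝ) ^ 2)⁻¹ : ℝ) : ℂ) := by push_cast; rfl
  rw [h7, Complex.re_ofReal_mul, Complex.re_sum]
  simp only [Complex.re_sum]

/-- moving the base point changes an average little -/
lemma Av_move (d : ℤ) {g : X → ℂ} (hC : ∀ x, ‖g x‖ ≤ 1) {R : ℕ} (hR : 0 < R) (k : ℕ) (x : X) :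
    ‖Av T d R g (S T (d * k) x) - Av T d R g x‖ ≤ 2 * k / R := by
  have hR' : (0 : ℝ) < R := by exact_mod_cast hR
  unfold Av
  rw [← mul_sub, norm_mul, norm_inv, Complex.norm_natCast]
  have h1 := norm_sum_shift_nat (fun z => g (S T (d * z) x)) 1 (fun z => hC _) 0 R k
  have h2 : ∀ i : ℕ, g (S T (d * i) (S T (d * k) x)) = g (S T (d * (0 + (k : ℤ) + i)) x) := by
    intro i
    rw [← S_add]
    congr 2
    ring
  have h3 : ∀ i : ℕ, g (S T (d * i) x) = g (S T (d * (0 + (i : ℤ))) x) := by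
    intro i
    rw [zero_add]
  simp only [h2]
  simp only [h3]
  rw [inv_mul_le_iff₀ hR']
  refine h1.trans (le_of_eq ?_)
  field_simp

lemma Q0_le (hT : MeasurePreserving T μ μ) (d : ℤ) {g : X → ℂ} (hg : Measurable g)
    (hC : ∀ x, ‖g x‖ ≤ 1) {K : ℕ} (hK : 0 < K) : Q μ T d 0 g ≤ ∫ x, ‖Av T d K g x‖ ^ 2 ∂μ := by
  have hK' : (0 : ℝ) < K := by exact_mod_cast hK
  have hK'' : (K : ℂ) ≠ 0 := by exact_mod_cast hK.ne'
  refine ls_le (A := 0) (fun R => integral_nonneg fun x => by positivity) fun δ hδ => ?_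
  obtain ⟨R0, hR0⟩ := exists_nat_gt (4 * K / δ)
  filter_upwards [Filter.eventually_ge_atTop (R0 + 1)] with R hR
  have hRp : 0 < R := by omega
  have hR' : (0 : ℝ) < R := by exact_mod_cast hRp
  have hKR : 4 * (K : ℝ) / R ≤ δ := by
    have h1 : (R0 : ℝ) ≤ R := by exact_mod_cast (by omega : R0 ≤ R)
    have h2 := hR0.trans_le h1
    rw [div_lt_iff₀ hδ] at h2
    rw [div_le_iff₀ hR']
    linarith
  -- pointwise comparison
  have h1 : ∀ x, ‖Av T d R g x‖ ^ 2 ≤ (R : ℝ)⁻¹ * ∑ j ∈ range R, ‖Av T d K g (S T (d * j) x)‖ ^ 2 + δ := by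
    intro x
    have e1 : (K : ℂ)⁻¹ * ∑ k ∈ range K, Av T d R g (S T (d * k) x) = (R : ℂ)⁻¹ * ∑ j ∈ range R, Av T d K g (S T (d * j) x) := by
      unfold Av
      rw [← Finset.mul_sum, ← Finset.mul_sum, Finset.sum_comm, ← mul_assoc, ← mul_assoc, mul_comm (K : ℂ)⁻¹]
      congr 1
      refine Finset.sum_congr rfl fun j _ => Finset.sum_congr rfl fun k _ => ?_
      rw [← S_add, ← S_add, add_comm]
    have e2 : ‖(K : ℂ)⁻¹ * ∑ k ∈ range K, Av T d R g (S T (d * k) x) - Av T d R g x‖ ≤ 2 * K / R := by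
      have e3 : Av T d R g x = (K : ℂ)⁻¹ * ∑ k ∈ range K, Av T d R g x := by
        rw [Finset.sum_const, Finset.card_range, nsmul_eq_mul, ← mul_assoc, inv_mul_cancel₀ hK'', one_mul]
      conv_lhs => rw [e3]
      rw [← mul_sub, ← Finset.sum_sub_distrib, norm_mul, norm_inv, Complex.norm_natCast, inv_mul_le_iff₀ hK']
      refine (norm_sum_le _ _).trans ?_
      refine (Finset.sum_le_sum (g := fun _ => 2 * (K : ℝ) / R) fun k hk => ?_).trans ?_
      · refine (Av_move d hC hRp k x).trans ?_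
        have : (k : ℝ) ≤ K := by exact_mod_cast (Finset.mem_range.1 hk).le
        gcongr
      · rw [Finset.sum_const, Finset.card_range, nsmul_eq_mul]
    rw [e1] at e2
    obtain ⟨z, hz⟩ : ∃ z : ℂ, z = (R : ℂ)⁻¹ * ∑ j ∈ range R, Av T d K g (S T (d * j) x) := ⟨_, rfl⟩
    rw [← hz] at e2
    have e4 : ‖Av T d R g x‖ ≤ ‖z‖ + 2 * K / R := by
      have := norm_sub_norm_le (Av T d R g x) z
      rw [norm_sub_rev] at this
      linarith
    have e5 : ‖Av T d R g x‖ ≤ 1 := norm_Av_le zero_le_one hC d R x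
    have e6 : ‖z‖ ≤ 1 := by
      rw [hz, norm_mul, norm_inv, Complex.norm_natCast, inv_mul_le_iff₀ hR']
      refine (norm_sum_le_of_le _ fun i _ => norm_Av_le zero_le_one hC d K _).trans ?_
      rw [Finset.sum_const, Finset.card_range, nsmul_eq_mul]
    have e7 : ‖z‖ ^ 2 ≤ (R : ℝ)⁻¹ * ∑ j ∈ range R, ‖Av T d K g (S T (d * j) x)‖ ^ 2 := by
      have e8 : ‖z‖ ≤ (R : ℝ)⁻¹ * ∑ j ∈ range R, ‖Av T d K g (S T (d * j) x)‖ := by
        rw [hz, norm_mul, norm_inv, Complex.norm_natCast]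
        gcongr
        exact norm_sum_le _ _
      have e9 := sq_sum_le_card_mul_sum_sq (s := range R) (f := fun j : ℕ => ‖Av T d K g (S T (d * j) x)‖)
      rw [Finset.card_range] at e9
      calc ‖z‖ ^ 2 ≤ ((R : ℝ)⁻¹ * ∑ j ∈ range R, ‖Av T d K g (S T (d * j) x)‖) ^ 2 := by gcongr
        _ = ((R : ℝ)⁻¹) ^ 2 * (∑ j ∈ range R, ‖Av T d K g (S T (d * j) x)‖) ^ 2 := by ring
        _ ≤ ((R : ℝ)⁻¹) ^ 2 * ((R : ℝ) * ∑ j ∈ range R, ‖Av T d K g (S T (d * j) x)‖ ^ 2) := by gcongr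
        _ = _ := by field_simp
    have e10 : ‖Av T d R g x‖ ^ 2 ≤ ‖z‖ ^ 2 + 4 * K / R := by
      have g1 := norm_nonneg (Av T d R g x)
      have g2 := norm_nonneg z
      have g3 : 4 * (K : ℝ) / R = 2 * (2 * K / R) := by ring
      rw [g3]
      have g4 : (0 : ℝ) ≤ 2 * K / R := by positivity
      nlinarith
    linarith
  have hm : ∀ j : ℕ, Measurable fun x => ‖Av T d K g (S T (d * j) x)‖ ^ 2 := fun j =>
    (((meas_Av hg d K).comp (S_meas T _)).norm).pow_const 2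
  have hj : ∀ j : ℕ, Integrable (fun x => ‖Av T d K g (S T (d * j) x)‖ ^ 2) μ := by
    intro j
    refine intgR (hm j) (C := 1) fun x => ?_
    rw [abs_of_nonneg (by positivity)]
    have := norm_Av_le (T := T) zero_le_one hC d K (S T (d * j) x)
    exact pow_le_one₀ (norm_nonneg _) this
  calc ∫ x, ‖Av T d R g x‖ ^ 2 ∂μ
      ≤ ∫ x, ((R : ℝ)⁻¹ * ∑ j ∈ range R, ‖Av T d K g (S T (d * j) x)‖ ^ 2 + δ) ∂μ := by
        refine integral_mono_of_nonneg (Eventually.of_forall fun x => by positivity) ?_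
          (Eventually.of_forall h1)
        exact ((integrable_finsetSum _ fun j _ => hj j).const_mul _).add (integrable_const _)
    _ = ∫ x, ‖Av T d K g x‖ ^ 2 ∂μ + δ := by
        rw [integral_add ((integrable_finsetSum _ fun j _ => hj j).const_mul _) (integrable_const _),
          integral_const_mul, integral_finsetSum _ fun j _ => hj j]
        have h2 : ∀ j ∈ range R, ∫ x, ‖Av T d K g (S T (d * j) x)‖ ^ 2 ∂μ = ∫ x, ‖Av T d K g x‖ ^ 2 ∂μ :=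
          fun j _ => int_S hT (d * j) (fun x => ‖Av T d K g x‖ ^ 2)
        rw [Finset.sum_congr rfl h2, Finset.sum_const, Finset.card_range, nsmul_eq_mul]
        simp
        field_simp

/-- the correlations of `χ` average to at most its first seminorm -/
lemma corr_le (hT : MeasurePreserving T μ μ) {χ : X → ℂ} (hχ : Measurable χ)
    (hC : ∀ x, ‖χ x‖ ≤ 1) {η : ℝ} (hη : 0 < η) :
    ∀ᶠ R : ℕ in atTop, (R : ℝ)⁻¹ * ∑ s ∈ range R, (∫ x, Dl T s χ x ∂μ).re ≤ Q μ T 1 0 χ + η := by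
  have hb1 : ∀ K : ℕ, ∫ x, ‖Av T 1 K χ x‖ ^ 2 ∂μ ≤ 1 := by
    intro K
    have h2 := norm_integral_le_of_norm_le_const (μ := μ) (C := 1)
      (f := fun x => ‖Av T 1 K χ x‖ ^ 2) (Eventually.of_forall fun x => by
        rw [Real.norm_of_nonneg (by positivity)]
        exact pow_le_one₀ (norm_nonneg _) (norm_Av_le zero_le_one hC 1 K x))
    rw [Real.norm_of_nonneg (integral_nonneg fun x => by positivity)] at h2
    simpa using h2
  have hev := ls_ev hb1 (half_pos hη)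
  obtain ⟨L0, hL0⟩ := Filter.eventually_atTop.1 hev
  obtain ⟨L, hL⟩ : ∃ L : ℕ, L = L0 + 1 := ⟨_, rfl⟩
  have hLp : 0 < L := by omega
  have hL' : (0 : ℝ) < L := by exact_mod_cast hLp
  have hL'' : (L : ℂ) ≠ 0 := by exact_mod_cast hLp.ne'
  have hQL : ∫ x, ‖Av T 1 L χ x‖ ^ 2 ∂μ ≤ Q μ T 1 0 χ + η / 2 := hL0 L (by omega)
  obtain ⟨R0, hR0⟩ := exists_nat_gt (4 * L / η)
  filter_upwards [Filter.eventually_ge_atTop (R0 + L0 + 1)] with R hR
  have hRp : 0 < R := by omega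
  have hR' : (0 : ℝ) < R := by exact_mod_cast hRp
  have hQR : ∫ x, ‖Av T 1 R χ x‖ ^ 2 ∂μ ≤ Q μ T 1 0 χ + η / 2 := hL0 R (by omega)
  have hLR : 2 * (L : ℝ) / R ≤ η / 2 := by
    have h1 : (R0 : ℝ) ≤ R := by exact_mod_cast (by omega : R0 ≤ R)
    have h2 := hR0.trans_le h1
    rw [div_lt_iff₀ hη] at h2
    rw [div_le_iff₀ hR']
    linarith
  have hAm : Measurable (Av T 1 R χ) := meas_Av hχ 1 R
  have hLm : Measurable (Av T 1 L χ) := meas_Av hχ 1 L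
  have hA1 : ∀ x, ‖Av T 1 R χ x‖ ≤ 1 := norm_Av_le zero_le_one hC 1 R
  have hL1 : ∀ x, ‖Av T 1 L χ x‖ ≤ 1 := norm_Av_le zero_le_one hC 1 L
  have hconj : ∀ {g : X → ℂ}, Measurable g → Measurable fun x => conj (g x) := fun hg =>
    RCLike.continuous_conj.measurable.comp hg
  -- the average correlation as one integral
  have e1 : (((R : ℝ)⁻¹ : ℝ) : ℂ) * ∑ s ∈ range R, ∫ x, Dl T s χ x ∂μ = ∫ x, χ x * conj (Av T 1 R χ x) ∂μ := by
    have h1 : ∀ x, χ x * conj (Av T 1 R χ x) = (((R : ℝ)⁻¹ : ℝ) : ℂ) * ∑ s ∈ range R, Dl T s χ x := by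
      intro x
      unfold Av Dl
      rw [map_mul, map_inv₀, Complex.conj_natCast, map_sum, ← Finset.mul_sum]
      simp only [one_mul]
      push_cast
      ring
    have h2 : ∫ x, χ x * conj (Av T 1 R χ x) ∂μ = ∫ x, (((R : ℝ)⁻¹ : ℝ) : ℂ) * ∑ s ∈ range R, Dl T s χ x ∂μ :=
      integral_congr_ae (Eventually.of_forall h1)
    rw [h2, integral_const_mul, integral_finsetSum _ fun s _ => intg (meas_Dl hχ _) (norm_Dl_le1 hC _)]
  have e2 : (R : ℝ)⁻¹ * ∑ s ∈ range R, (∫ x, Dl T s χ x ∂μ).re = (∫ x, χ x * conj (Av T 1 R χ x) ∂μ).re := by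
    rw [← e1, Complex.re_ofReal_mul, Complex.re_sum]
  -- moving by `l`
  have e3 : ∀ l ∈ range L, ‖∫ x, χ x * conj (Av T 1 R χ x) ∂μ - ∫ x, χ (S T (1 * l) x) * conj (Av T 1 R χ x) ∂μ‖
      ≤ 2 * L / R := by
    intro l hl
    have h1 : ∫ x, χ x * conj (Av T 1 R χ x) ∂μ
        = ∫ x, χ (S T (1 * l) x) * conj (Av T 1 R χ (S T (1 * l) x)) ∂μ :=
      (int_S hT (1 * l) (fun x => χ x * conj (Av T 1 R χ x))).symm
    rw [h1, ← integral_sub]
    · have h2 := norm_integral_le_of_norm_le_const (μ := μ) (C := 2 * (L : ℝ) / R)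
        (f := fun x => χ (S T (1 * l) x) * conj (Av T 1 R χ (S T (1 * l) x))
          - χ (S T (1 * l) x) * conj (Av T 1 R χ x)) (Eventually.of_forall fun x => by
          rw [← mul_sub, ← map_sub, norm_mul, RCLike.norm_conj]
          have h3 := Av_move (T := T) 1 hC hRp l x
          have h4 : (l : ℝ) ≤ L := by exact_mod_cast (Finset.mem_range.1 hl).le
          calc ‖χ (S T (1 * l) x)‖ * ‖Av T 1 R χ (S T (1 * l) x) - Av T 1 R χ x‖
              ≤ 1 * (2 * l / R) := mul_le_mul (hC _) h3 (norm_nonneg _) zero_le_one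
            _ ≤ 2 * L / R := by
              rw [one_mul]
              gcongr)
      simpa using h2
    · refine intg (((hχ.comp (S_meas T _))).mul (hconj (hAm.comp (S_meas T _)))) (C := 1) fun x => ?_
      rw [norm_mul, RCLike.norm_conj]
      exact mul_le_one₀ (hC _) (norm_nonneg _) (hA1 _)
    · refine intg (((hχ.comp (S_meas T _))).mul (hconj hAm)) (C := 1) fun x => ?_
      rw [norm_mul, RCLike.norm_conj]
      exact mul_le_one₀ (hC _) (norm_nonneg _) (hA1 _)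
  have e4 : (L : ℂ)⁻¹ * ∑ l ∈ range L, ∫ x, χ (S T (1 * l) x) * conj (Av T 1 R χ x) ∂μ
      = ∫ x, Av T 1 L χ x * conj (Av T 1 R χ x) ∂μ := by
    rw [← integral_finsetSum _ fun l _ => ?_, ← integral_const_mul]
    · refine integral_congr_ae (Eventually.of_forall fun x => ?_)
      simp only
      rw [← Finset.sum_mul, ← mul_assoc]
      rfl
    · refine intg (((hχ.comp (S_meas T _))).mul (hconj hAm)) (C := 1) fun x => ?_
      rw [norm_mul, RCLike.norm_conj]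
      exact mul_le_one₀ (hC _) (norm_nonneg _) (hA1 _)
  have e5 : ‖∫ x, χ x * conj (Av T 1 R χ x) ∂μ - ∫ x, Av T 1 L χ x * conj (Av T 1 R χ x) ∂μ‖ ≤ 2 * L / R := by
    rw [← e4]
    have h1 : ∫ x, χ x * conj (Av T 1 R χ x) ∂μ = (L : ℂ)⁻¹ * ∑ l ∈ range L, ∫ x, χ x * conj (Av T 1 R χ x) ∂μ := by
      rw [Finset.sum_const, Finset.card_range, nsmul_eq_mul, ← mul_assoc, inv_mul_cancel₀ hL'', one_mul]
    conv_lhs => rw [h1]
    rw [← mul_sub, ← Finset.sum_sub_distrib, norm_mul, norm_inv, Complex.norm_natCast, inv_mul_le_iff₀ hL']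
    refine (norm_sum_le _ _).trans ?_
    refine (Finset.sum_le_sum e3).trans ?_
    rw [Finset.sum_const, Finset.card_range, nsmul_eq_mul]
  have e6 : (∫ x, Av T 1 L χ x * conj (Av T 1 R χ x) ∂μ).re
      ≤ (∫ x, ‖Av T 1 L χ x‖ ^ 2 ∂μ + ∫ x, ‖Av T 1 R χ x‖ ^ 2 ∂μ) / 2 := by
    have hi1 : Integrable (fun x => ‖Av T 1 L χ x‖ ^ 2) μ := intgR (hLm.norm.pow_const 2) (C := 1) fun x => by
      rw [abs_of_nonneg (by positivity)]
      exact pow_le_one₀ (norm_nonneg _) (hL1 x)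
    have hi2 : Integrable (fun x => ‖Av T 1 R χ x‖ ^ 2) μ := intgR (hAm.norm.pow_const 2) (C := 1) fun x => by
      rw [abs_of_nonneg (by positivity)]
      exact pow_le_one₀ (norm_nonneg _) (hA1 x)
    have h1 : (∫ x, Av T 1 L χ x * conj (Av T 1 R χ x) ∂μ).re ≤ ∫ x, ‖Av T 1 L χ x * conj (Av T 1 R χ x)‖ ∂μ :=
      (Complex.re_le_norm _).trans (norm_integral_le_integral_norm _)
    refine h1.trans ?_
    rw [← integral_add hi1 hi2, ← integral_div]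
    refine integral_mono_of_nonneg (Eventually.of_forall fun x => norm_nonneg _)
      ((hi1.add hi2).div_const 2) (Eventually.of_forall fun x => ?_)
    simp only
    rw [norm_mul, RCLike.norm_conj]
    nlinarith [sq_nonneg (‖Av T 1 L χ x‖ - ‖Av T 1 R χ x‖)]
  have e7 : (∫ x, χ x * conj (Av T 1 R χ x) ∂μ).re ≤ (∫ x, Av T 1 L χ x * conj (Av T 1 R χ x) ∂μ).re + 2 * L / R := by
    have h1 := (Complex.re_le_norm (∫ x, χ x * conj (Av T 1 R χ x) ∂μ
      - ∫ x, Av T 1 L χ x * conj (Av T 1 R χ x) ∂μ)).trans e5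
    rw [Complex.sub_re] at h1
    linarith
  rw [e2]
  linarith

/-- the first dilation -/
lemma Q1_dil (hT : MeasurePreserving T μ μ) {d : ℤ} (hd : d ≠ 0) {g : X → ℂ} (hg : Measurable g)
    (hC : ∀ x, ‖g x‖ ≤ 1) : Q μ T d 1 g ≤ 2 * (d.natAbs + 1) * Q μ T 1 1 g := by
  have h0 : ∀ R : ℕ, 0 ≤ (R : ℝ)⁻¹ * ∑ r ∈ range R, Q μ T d 0 (Dl T r g) := fun R =>
    mul_nonneg (by positivity) (Finset.sum_nonneg fun r _ => Q_nonneg d 0 (norm_Dl_le1 hC r))
  refine ls_le h0 fun δ hδ => ?_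
  obtain ⟨c, hc⟩ : ∃ c : ℝ, c = 2 * (d.natAbs + 1) := ⟨_, rfl⟩
  have hc0 : 0 < c := by rw [hc]; positivity
  rw [← hc]
  have hη : 0 < δ / (2 * c) := by positivity
  obtain ⟨K, hKev, hKp⟩ := ((avg_Dl (μ := μ) hT 1 0 hd hC hη).and (Filter.eventually_gt_atTop 0)).exists
  rw [← hc] at hKev
  have hK' : (0 : ℝ) < K := by exact_mod_cast hKp
  have hcor : ∀ᶠ R : ℕ in atTop, ∀ k ∈ range K, ∀ k' ∈ range K,
      (R : ℝ)⁻¹ * ∑ s ∈ range R, (∫ x, Dl T s (Dl T (d * ((k' : ℤ) - k)) g) x ∂μ).re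
        ≤ Q μ T 1 0 (Dl T (d * ((k' : ℤ) - k)) g) + δ / 2 := by
    rw [Filter.eventually_all_finset]
    intro k _
    rw [Filter.eventually_all_finset]
    intro k' _
    exact corr_le hT (meas_Dl hg _) (norm_Dl_le1 hC _) (half_pos hδ)
  filter_upwards [hcor, Filter.eventually_gt_atTop 0] with R hR hRp
  have hR' : (0 : ℝ) < R := by exact_mod_cast hRp
  have h1 : ∀ s ∈ range R, Q μ T d 0 (Dl T s g) ≤ ((K : ℝ) ^ 2)⁻¹ * ∑ k ∈ range K, ∑ k' ∈ range K,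
      (∫ x, Dl T s (Dl T (d * ((k' : ℤ) - k)) g) x ∂μ).re := by
    intro s _
    have h2 := Q0_le (g := Dl T (s : ℤ) g) hT d (meas_Dl hg (s : ℤ)) (norm_Dl_le1 hC (s : ℤ)) hKp
    rw [int_sq (g := Dl T (s : ℤ) g) hT d K (meas_Dl hg (s : ℤ)) (norm_Dl_le1 hC (s : ℤ))] at h2
    refine h2.trans (le_of_eq ?_)
    congr 1
    refine Finset.sum_congr rfl fun k _ => Finset.sum_congr rfl fun k' _ => ?_
    rw [Dl_comm]
  have h3 := Finset.sum_le_sum h1
  have h4 : ∑ s ∈ range R, ((K : ℝ) ^ 2)⁻¹ * ∑ k ∈ range K, ∑ k' ∈ range K,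
      (∫ x, Dl T s (Dl T (d * ((k' : ℤ) - k)) g) x ∂μ).re
      = R * (((K : ℝ) ^ 2)⁻¹ * ∑ k ∈ range K, ∑ k' ∈ range K, ((R : ℝ)⁻¹ * ∑ s ∈ range R,
      (∫ x, Dl T s (Dl T (d * ((k' : ℤ) - k)) g) x ∂μ).re)) := by
    rw [← Finset.mul_sum, Finset.sum_comm]
    have h5 : ∀ k ∈ range K, ∑ s ∈ range R, ∑ k' ∈ range K, (∫ x, Dl T s (Dl T (d * ((k' : ℤ) - k)) g) x ∂μ).re
        = R * ∑ k' ∈ range K, ((R : ℝ)⁻¹ * ∑ s ∈ range R, (∫ x, Dl T s (Dl T (d * ((k' : ℤ) - k)) g) x ∂μ).re) := by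
      intro k _
      rw [Finset.sum_comm, Finset.mul_sum]
      refine Finset.sum_congr rfl fun k' _ => ?_
      rw [← mul_assoc, mul_inv_cancel₀ hR'.ne', one_mul]
    rw [Finset.sum_congr rfl h5, ← Finset.mul_sum]
    ring
  rw [h4] at h3
  have h6 : ∑ k ∈ range K, ∑ k' ∈ range K, ((R : ℝ)⁻¹ * ∑ s ∈ range R,
      (∫ x, Dl T s (Dl T (d * ((k' : ℤ) - k)) g) x ∂μ).re)
      ≤ ∑ k ∈ range K, ∑ k' ∈ range K, Q μ T 1 0 (Dl T (d * ((k' : ℤ) - k)) g) + (K : ℝ) ^ 2 * (δ / 2) := by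
    refine (Finset.sum_le_sum fun k hk => Finset.sum_le_sum fun k' hk' => hR k hk k' hk').trans (le_of_eq ?_)
    simp only [Finset.sum_add_distrib, Finset.sum_const, Finset.card_range, nsmul_eq_mul]
    ring
  calc (R : ℝ)⁻¹ * ∑ r ∈ range R, Q μ T d 0 (Dl T r g)
      ≤ (R : ℝ)⁻¹ * (R * (((K : ℝ) ^ 2)⁻¹ * ∑ k ∈ range K, ∑ k' ∈ range K, ((R : ℝ)⁻¹ * ∑ s ∈ range R,
        (∫ x, Dl T s (Dl T (d * ((k' : ℤ) - k)) g) x ∂μ).re))) := by gcongr
    _ = ((K : ℝ) ^ 2)⁻¹ * ∑ k ∈ range K, ∑ k' ∈ range K, ((R : ℝ)⁻¹ * ∑ s ∈ range R,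
        (∫ x, Dl T s (Dl T (d * ((k' : ℤ) - k)) g) x ∂μ).re) := by
      rw [← mul_assoc, inv_mul_cancel₀ hR'.ne', one_mul]
    _ ≤ ((K : ℝ) ^ 2)⁻¹ * (∑ k ∈ range K, ∑ k' ∈ range K, Q μ T 1 0 (Dl T (d * ((k' : ℤ) - k)) g)
        + (K : ℝ) ^ 2 * (δ / 2)) := by gcongr
    _ = ((K : ℝ) ^ 2)⁻¹ * ∑ k ∈ range K, ∑ k' ∈ range K, Q μ T 1 0 (Dl T (d * ((k' : ℤ) - k)) g) + δ / 2 := by
      rw [mul_add, ← mul_assoc (((K : ℝ) ^ 2)⁻¹) ((K : ℝ) ^ 2), inv_mul_cancel₀ (by positivity), one_mul]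
    _ ≤ c * (Q μ T 1 (0 + 1) g + δ / (2 * c)) + δ / 2 := by gcongr
    _ = c * Q μ T 1 1 g + δ := by
      rw [mul_add]
      have : c * (δ / (2 * c)) = δ / 2 := by field_simp
      rw [this]
      ring_nf

/-- the innermost step is irrelevant from the second seminorm on -/
lemma Q_dil (hT : MeasurePreserving T μ μ) {d : ℤ} (hd : d ≠ 0) (t : ℕ) : ∀ {g : X → ℂ},
    Measurable g → (∀ x, ‖g x‖ ≤ 1) → Q μ T d (t + 1) g ≤ 2 * (d.natAbs + 1) * Q μ T 1 (t + 1) g := by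
  induction t with
  | zero => exact fun hg hC => Q1_dil hT hd hg hC
  | succ t ih =>
    intro g hg hC
    obtain ⟨c, hc⟩ : ∃ c : ℝ, c = 2 * (d.natAbs + 1) := ⟨_, rfl⟩
    have hc0 : 0 < c := by rw [hc]; positivity
    rw [← hc]
    have h0 : ∀ R : ℕ, 0 ≤ (R : ℝ)⁻¹ * ∑ r ∈ range R, Q μ T 1 (t + 1) (Dl T r g) := fun R =>
      mul_nonneg (by positivity) (Finset.sum_nonneg fun r _ => Q_nonneg 1 (t + 1) (norm_Dl_le1 hC r))
    have h0' : ∀ R : ℕ, 0 ≤ (R : ℝ)⁻¹ * ∑ r ∈ range R, Q μ T d (t + 1) (Dl T r g) := fun R =>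
      mul_nonneg (by positivity) (Finset.sum_nonneg fun r _ => Q_nonneg d (t + 1) (norm_Dl_le1 hC r))
    have h1 : ∀ R : ℕ, (R : ℝ)⁻¹ * ∑ r ∈ range R, Q μ T 1 (t + 1) (Dl T r g) ≤ 1 := by
      intro R
      rcases Nat.eq_zero_or_pos R with rfl | hR
      · simp
      have hR' : (0 : ℝ) < R := by exact_mod_cast hR
      rw [inv_mul_le_iff₀ hR']
      refine (Finset.sum_le_sum fun (r : ℕ) _ => Q_le_one 1 (t + 1) (norm_Dl_le1 hC (r : ℤ))).trans ?_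
      rw [Finset.sum_const, Finset.card_range, nsmul_eq_mul]
    refine ls_le h0' fun δ hδ => ?_
    filter_upwards [ls_ev h1 (div_pos hδ hc0)] with R hR
    have h2 : (R : ℝ)⁻¹ * ∑ r ∈ range R, Q μ T d (t + 1) (Dl T r g)
        ≤ c * ((R : ℝ)⁻¹ * ∑ r ∈ range R, Q μ T 1 (t + 1) (Dl T r g)) := by
      have h3 : ∑ r ∈ range R, Q μ T d (t + 1) (Dl T r g) ≤ c * ∑ r ∈ range R, Q μ T 1 (t + 1) (Dl T r g) := by
        rw [Finset.mul_sum]
        refine Finset.sum_le_sum fun r _ => ?_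
        rw [hc]
        exact ih (meas_Dl hg _) (norm_Dl_le1 hC _)
      calc (R : ℝ)⁻¹ * ∑ r ∈ range R, Q μ T d (t + 1) (Dl T r g)
          ≤ (R : ℝ)⁻¹ * (c * ∑ r ∈ range R, Q μ T 1 (t + 1) (Dl T r g)) := by gcongr
        _ = _ := by ring
    refine h2.trans ((mul_le_mul_of_nonneg_left hR hc0.le).trans (le_of_eq ?_))
    rw [mul_add, mul_div_cancel₀ _ hc0.ne']
    rfl

end Pool.Agent.V8H53.Sta
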