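import Pool.Agent.V8H53.Sta.Dil

/-!
# Removing the factors one by one
-/

set_option autoImplicit false
set_option linter.unusedSectionVars false

open MeasureTheory Filter Topology Finset
open scoped ENNReal ComplexConjugate

namespace Pool.Agent.V8H53.Sta

open Pool.Agent.V8H53.Com (ce ce_meas ce_bound ce_inv ce_ae mean_tendsto ex_small_fam birkE)

/-- upper bounds for the square of averages with a further factor that is constant along `(1, -c)` -/
def BdW (V : ℤ → ℤ → ℂ) (c : ℤ) (b : ℝ) : Prop :=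
  ∀ C : ℕ, ∀ δ : ℝ, 0 < δ → ∃ M : ℕ, ∀ N H : ℕ, M ≤ N → M ≤ H → ∀ v u : ℤ,
    |v| ≤ (C * max N H : ℕ) → |u| ≤ (C * max N H : ℕ) → ∀ W : ℤ → ℤ → ℂ, (∀ n h, ‖W n h‖ ≤ 1) →
    (∀ n h k, W (n + k) (h + -(c * k)) = W n h) → ‖D (fun n h => W n h * V n h) v u N H‖ ^ 2 ≤ b + δ

lemma err_small (c : ℤ) (K : ℕ) {δ : ℝ} (hδ : 0 < δ) : ∃ M : ℕ, 0 < M ∧ ∀ N H : ℕ, M ≤ N → M ≤ H →
    3 * (2 * (K : ℝ) / N + 2 * |(c : ℝ)| * K / H) ≤ δ := by
  obtain ⟨M, hM⟩ := exists_nat_gt (3 * (2 * (K : ℝ) + 2 * |(c : ℝ)| * K) / δ)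
  refine ⟨M + 1, Nat.succ_pos _, fun N H hN hH => ?_⟩
  have hN' : (M : ℝ) < N := by exact_mod_cast hN
  have hH' : (M : ℝ) < H := by exact_mod_cast hH
  have hM0 : (0 : ℝ) ≤ M := Nat.cast_nonneg M
  have hM1 : (0 : ℝ) < (M : ℝ) + 1 := by positivity
  have h1 : 2 * (K : ℝ) / N ≤ 2 * K / (M + 1) := by
    have : (M : ℝ) + 1 ≤ N := by exact_mod_cast hN
    gcongr
  have h2 : 2 * |(c : ℝ)| * K / H ≤ 2 * |(c : ℝ)| * K / (M + 1) := by
    have : (M : ℝ) + 1 ≤ H := by exact_mod_cast hH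
    gcongr
  have h3 : 3 * (2 * (K : ℝ) / (M + 1) + 2 * |(c : ℝ)| * K / (M + 1)) ≤ δ := by
    rw [← add_div, ← mul_div_assoc, div_le_iff₀ hM1]
    rw [div_lt_iff₀ hδ] at hM
    linarith
  linarith

/-- one application of the inequality of van der Corput -/
lemma step {V : ℤ → ℤ → ℂ} (hV : ∀ n h, ‖V n h‖ ≤ 1) {c : ℤ} {β : ℤ → ℝ}
    (hβ : ∀ r, Bd (fun v u N H => ‖D (Cor V c r) v u N H‖) (β r)) {K : ℕ} (hK : 0 < K) :
    BdW V c (((K : ℝ) ^ 2)⁻¹ * ∑ k ∈ range K, ∑ k' ∈ range K, β ((k' : ℤ) - k)) := by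
  intro C δ hδ
  have hK' : (0 : ℝ) < K := by exact_mod_cast hK
  choose M hM using fun r : ℤ => hβ r C (δ / 2) (half_pos hδ)
  obtain ⟨M', hM'0, hM'⟩ := err_small c K (half_pos hδ)
  refine ⟨(Finset.Icc (-(K : ℤ)) K).sup M + M', fun N H hN hH v u hv hu W hW hc => ?_⟩
  have hNp : 0 < N := by omega
  have hHp : 0 < H := by omega
  have h1 := vdc hW hV c hc v u hNp hHp hK
  have h2 := hM' N H (by omega) (by omega)
  have h3 : ∀ k ∈ range K, ∀ k' ∈ range K, ‖D (Cor V c ((k' : ℤ) - k)) v u N H‖ ≤ β ((k' : ℤ) - k) + δ / 2 := by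
    intro k hk k' hk'
    have h4 : M ((k' : ℤ) - k) ≤ (Finset.Icc (-(K : ℤ)) K).sup M := by
      apply Finset.le_sup (f := M)
      rw [Finset.mem_range] at hk hk'
      rw [Finset.mem_Icc]
      constructor <;> omega
    exact hM ((k' : ℤ) - k) N H (by omega) (by omega) v u hv hu
  have h5 : ∑ k ∈ range K, ∑ k' ∈ range K, ‖D (Cor V c ((k' : ℤ) - k)) v u N H‖
      ≤ ∑ k ∈ range K, ∑ k' ∈ range K, β ((k' : ℤ) - k) + (K : ℝ) ^ 2 * (δ / 2) := by
    refine (Finset.sum_le_sum fun k hk => Finset.sum_le_sum fun k' hk' => h3 k hk k' hk').trans (le_of_eq ?_)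
    simp only [Finset.sum_add_distrib, Finset.sum_const, Finset.card_range, nsmul_eq_mul]
    ring
  calc ‖D (fun n h => W n h * V n h) v u N H‖ ^ 2
      ≤ ((K : ℝ) ^ 2)⁻¹ * (∑ k ∈ range K, ∑ k' ∈ range K, β ((k' : ℤ) - k) + (K : ℝ) ^ 2 * (δ / 2)) + δ / 2 := by
        refine h1.trans (add_le_add ?_ h2)
        gcongr
    _ = _ := by
      rw [mul_add, ← mul_assoc (((K : ℝ) ^ 2)⁻¹) ((K : ℝ) ^ 2), inv_mul_cancel₀ (by positivity), one_mul]
      ring

lemma sq_to {x b δ : ℝ} (hb : 0 ≤ b) (hδ : 0 ≤ δ) (h : x ^ 2 ≤ b ^ 2 + δ ^ 2) : x ≤ b + δ := by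
  by_contra hx
  push Not at hx
  nlinarith [mul_nonneg hb hδ]

variable {X : Type*} [MeasurableSpace X] {μ : Measure X} [IsProbabilityMeasure μ] {T : X ≃ᵐ X}

/-- products along the orbit of `x` -/
noncomputable def P (T : X ≃ᵐ X) (B : Finset ℤ) (w : ℤ → X → ℂ) (x : X) : ℤ → ℤ → ℂ :=
  fun n h => ∏ b ∈ B, w b (S T (b * n + h) x)

lemma norm_P_le (B : Finset ℤ) {w : ℤ → X → ℂ} (hw : ∀ b x, ‖w b x‖ ≤ 1) (x : X) (n h : ℤ) :
    ‖P T B w x n h‖ ≤ 1 := by
  unfold P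
  rw [norm_prod]
  exact Finset.prod_le_one (fun _ _ => norm_nonneg _) fun _ _ => hw _ _

/-- the functions after one step -/
noncomputable def wD (T : X ≃ᵐ X) (c r : ℤ) (w : ℤ → X → ℂ) : ℤ → X → ℂ := fun b => Dl T ((b - c) * r) (w b)

lemma Cor_P (B : Finset ℤ) (w : ℤ → X → ℂ) (x : X) (c r : ℤ) :
    Cor (P T B w x) c r = P T B (wD T c r w) x := by
  funext n h
  unfold Cor P wD Dl
  rw [map_prod, ← Finset.prod_mul_distrib]
  refine Finset.prod_congr rfl fun b _ => ?_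
  rw [← S_add]
  congr 4
  ring

/-- the integral of the norm of the conditional expectation of `|g| ^ 2` -/
lemma int_ce {g : X → ℂ} (hg : Measurable g) (hC : ∀ x, ‖g x‖ ≤ 1) :
    ∫ x, ‖ce μ T 1 (fun y => g y * conj (g y)) x‖ ∂μ = ∫ x, ‖g x‖ ^ 2 ∂μ := by
  have h1 : (fun y => g y * conj (g y)) = fun y => ((‖g y‖ ^ 2 : ℝ) : ℂ) := by
    funext y
    rw [Complex.mul_conj, Complex.normSq_eq_norm_sq]
  have hle : ∀ x, ‖g x * conj (g x)‖ ≤ 1 := by
    intro x
    rw [norm_mul, RCLike.norm_conj]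
    exact mul_le_one₀ (hC _) (norm_nonneg _) (hC _)
  have h2 := ce_ae μ T 1 (fun y => g y * conj (g y)) hle
  have hint : Integrable (fun y => ‖g y‖ ^ 2) μ := intgR (hg.norm.pow_const 2) (C := 1) fun x => by
    rw [abs_of_nonneg (by positivity)]
    exact pow_le_one₀ (norm_nonneg _) (hC x)
  have h3 := Complex.ofRealCLM.comp_condExp_comm (m := MeasurableSpace.invariants T) hint
  have h4 : 0 ≤ᵐ[μ] μ[fun y => ‖g y‖ ^ 2 | MeasurableSpace.invariants T] :=
    condExp_nonneg (Eventually.of_forall fun y => by positivity)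
  have h5 : ∫ x, ‖ce μ T 1 (fun y => g y * conj (g y)) x‖ ∂μ
      = ∫ x, (μ[fun y => ‖g y‖ ^ 2 | MeasurableSpace.invariants T]) x ∂μ := by
    refine integral_congr_ae ?_
    filter_upwards [h2, h3, h4] with x e2 e3 e4
    rw [e2, h1]
    have e5 : (μ[fun y => ((‖g y‖ ^ 2 : ℝ) : ℂ) | MeasurableSpace.invariants T]) x
        = (((μ[fun y => ‖g y‖ ^ 2 | MeasurableSpace.invariants T]) x : ℝ) : ℂ) := e3.symm
    rw [e5, Complex.norm_real, Real.norm_of_nonneg e4]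
  rw [h5, integral_condExp (MeasurableSpace.invariants_le T)]

/-- one further factor: the bound -/
lemma pair_bound (hT : MeasurePreserving T μ μ) {a : ℤ} (ha : a ≠ 0) (c : ℤ) {g : X → ℂ}
    (hg : Measurable g) (hC : ∀ x, ‖g x‖ ≤ 1) {K : ℕ} (hK : 0 < K) :
    ∀ᵐ x ∂μ, BdW (orb T g a x) c ‖ce μ T 1 (fun y => Av T (a - c) K g y * conj (Av T (a - c) K g y)) x‖ := by
  have hm : Measurable (Av T (a - c) K g) := meas_Av hg _ K
  have h1 : ∀ x, ‖Av T (a - c) K g x‖ ≤ 1 := norm_Av_le zero_le_one hC _ K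
  have hφm : Measurable (fun y => Av T (a - c) K g y * conj (Av T (a - c) K g y)) :=
    hm.mul (RCLike.continuous_conj.measurable.comp hm)
  have hφ1 : ∀ x, ‖Av T (a - c) K g x * conj (Av T (a - c) K g x)‖ ≤ 1 := by
    intro x
    rw [norm_mul, RCLike.norm_conj]
    exact mul_le_one₀ (h1 _) (norm_nonneg _) (h1 _)
  filter_upwards [base hT ha hφm hφ1] with x hx
  intro C δ hδ
  obtain ⟨M, hM⟩ := hx C (δ / 2) (half_pos hδ)
  obtain ⟨M', hM'0, hM'⟩ := err_small c K (half_pos hδ)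
  refine ⟨M + M', fun N H hN hH v u hv hu W hW hc => ?_⟩
  have hNp : 0 < N := by omega
  have hHp : 0 < H := by omega
  have h2 := vdc0 hW (V := orb T g a x) (fun n h => hC _) c hc v u hNp hHp hK
  have h3 := hM' N H (by omega) (by omega)
  have h4 := hM N H (by omega) (by omega) v u hv hu
  have h5 : ∀ n h : ℤ, Me (orb T g a x) c K n h = Av T (a - c) K g (S T (a * n + h) x) := by
    intro n h
    unfold Me orb Av
    congr 1
    refine Finset.sum_congr rfl fun k _ => ?_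
    rw [← S_add]
    congr 2
    ring
  have h6 : D (fun n h => Me (orb T g a x) c K n h * conj (Me (orb T g a x) c K n h)) v u N H
      = D (orb T (fun y => Av T (a - c) K g y * conj (Av T (a - c) K g y)) a x) v u N H := by
    simp only [h5]
    rfl
  rw [h6] at h2
  have h7 := norm_sub_norm_le (D (orb T (fun y => Av T (a - c) K g y * conj (Av T (a - c) K g y)) a x) v u N H)
    (ce μ T 1 (fun y => Av T (a - c) K g y * conj (Av T (a - c) K g y)) x)
  have h8 : 0 ≤ 2 * (K : ℝ) / N + 2 * |(c : ℝ)| * K / H := by positivity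
  simp only at h4
  linarith

lemma inv_W (w : X → ℂ) (c : ℤ) (x : X) (n h k : ℤ) :
    w (S T (c * (n + k) + (h + -(c * k))) x) = w (S T (c * n + h) x) := by
  congr 2
  ring

/-- from a bound for the square to a bound -/
lemma Bd_of_BdW {V : ℤ → ℤ → ℂ} {c : ℤ} {b : ℝ} (hb : 0 ≤ b) (h : BdW V c b) {W : ℤ → ℤ → ℂ}
    (hW : ∀ n h, ‖W n h‖ ≤ 1) (hc : ∀ n h k, W (n + k) (h + -(c * k)) = W n h) :
    Bd (fun v u N H => ‖D (fun n h => W n h * V n h) v u N H‖) (Real.sqrt b) := by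
  intro C δ hδ
  obtain ⟨M, hM⟩ := h C (δ ^ 2) (by positivity)
  refine ⟨M, fun N H hN hH v u hv hu => ?_⟩
  have h1 := hM N H hN hH v u hv hu W hW hc
  refine sq_to (Real.sqrt_nonneg b) hδ.le ?_
  rw [Real.sq_sqrt hb]
  exact h1

/-- the power of a mean of nonnegative numbers -/
lemma mean_pow_le {K : ℕ} (hK : 0 < K) (p : ℕ) (z : ℕ → ℕ → ℝ) (hz : ∀ k k', 0 ≤ z k k') :
    (((K : ℝ) ^ 2)⁻¹ * ∑ k ∈ range K, ∑ k' ∈ range K, z k k') ^ p
      ≤ ((K : ℝ) ^ 2)⁻¹ * ∑ k ∈ range K, ∑ k' ∈ range K, z k k' ^ p := by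
  have hK' : (0 : ℝ) < K := by exact_mod_cast hK
  have h := Real.pow_arith_mean_le_arith_mean_pow (range K ×ˢ range K) (fun _ => ((K : ℝ) ^ 2)⁻¹)
    (fun q : ℕ × ℕ => z q.1 q.2) (fun _ _ => by positivity) (by
      rw [Finset.sum_const, Finset.card_product, Finset.card_range, nsmul_eq_mul]
      push_cast
      field_simp) (fun q _ => hz q.1 q.2) p
  rw [← Finset.mul_sum, ← Finset.mul_sum, Finset.sum_product, Finset.sum_product] at h
  exact h

/-- bounds of the means of a family of bounded functions -/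
lemma mean_int {β : ℤ → X → ℝ} (hm : ∀ r, Measurable (β r)) (h01 : ∀ r x, 0 ≤ β r x ∧ β r x ≤ 1)
    {K : ℕ} (hK : 0 < K) (p : ℕ) {q : ℤ → ℝ} {A η : ℝ} (hq : ∀ r, ∫ x, β r x ^ p ∂μ ≤ A * q r + η) :
    ∫ x, (((K : ℝ) ^ 2)⁻¹ * ∑ k ∈ range K, ∑ k' ∈ range K, β ((k' : ℤ) - k) x) ^ p ∂μ
      ≤ A * (((K : ℝ) ^ 2)⁻¹ * ∑ k ∈ range K, ∑ k' ∈ range K, q ((k' : ℤ) - k)) + η := by
  have hK' : (0 : ℝ) < K := by exact_mod_cast hK
  have hi : ∀ r : ℤ, Integrable (fun x => β r x ^ p) μ := fun r =>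
    intgR ((hm r).pow_const p) (C := 1) fun x => by
      rw [abs_of_nonneg (pow_nonneg (h01 r x).1 p)]
      exact pow_le_one₀ (h01 r x).1 (h01 r x).2
  have hi2 : Integrable (fun x => ((K : ℝ) ^ 2)⁻¹ * ∑ k ∈ range K, ∑ k' ∈ range K, β ((k' : ℤ) - k) x ^ p) μ :=
    (integrable_finsetSum _ fun k _ => integrable_finsetSum _ fun k' _ => hi _).const_mul _
  calc ∫ x, (((K : ℝ) ^ 2)⁻¹ * ∑ k ∈ range K, ∑ k' ∈ range K, β ((k' : ℤ) - k) x) ^ p ∂μ
      ≤ ∫ x, ((K : ℝ) ^ 2)⁻¹ * ∑ k ∈ range K, ∑ k' ∈ range K, β ((k' : ℤ) - k) x ^ p ∂μ := by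
        refine integral_mono_of_nonneg (Eventually.of_forall fun x => ?_) hi2
          (Eventually.of_forall fun x => mean_pow_le hK p (fun k k' => β ((k' : ℤ) - k) x) fun k k' => (h01 _ x).1)
        exact pow_nonneg (mul_nonneg (by positivity)
          (Finset.sum_nonneg fun k _ => Finset.sum_nonneg fun k' _ => (h01 _ x).1)) p
    _ = ((K : ℝ) ^ 2)⁻¹ * ∑ k ∈ range K, ∑ k' ∈ range K, ∫ x, β ((k' : ℤ) - k) x ^ p ∂μ := by
        rw [integral_const_mul, integral_finsetSum _ fun k _ => integrable_finsetSum _ fun k' _ => hi _]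
        congr 1
        refine Finset.sum_congr rfl fun k _ => ?_
        rw [integral_finsetSum _ fun k' _ => hi _]
    _ ≤ ((K : ℝ) ^ 2)⁻¹ * ∑ k ∈ range K, ∑ k' ∈ range K, (A * q ((k' : ℤ) - k) + η) := by
        gcongr with k _ k' _
        exact hq _
    _ = _ := by
        simp only [Finset.sum_add_distrib, Finset.sum_const, Finset.card_range, nsmul_eq_mul]
        simp only [← Finset.mul_sum]
        field_simp

lemma mean_01 {β : ℤ → X → ℝ} (h01 : ∀ r x, 0 ≤ β r x ∧ β r x ≤ 1) {K : ℕ} (hK : 0 < K) (x : X) :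
    0 ≤ ((K : ℝ) ^ 2)⁻¹ * ∑ k ∈ range K, ∑ k' ∈ range K, β ((k' : ℤ) - k) x ∧
    ((K : ℝ) ^ 2)⁻¹ * ∑ k ∈ range K, ∑ k' ∈ range K, β ((k' : ℤ) - k) x ≤ 1 := by
  have hK' : (0 : ℝ) < K := by exact_mod_cast hK
  refine ⟨mul_nonneg (by positivity)
          (Finset.sum_nonneg fun k _ => Finset.sum_nonneg fun k' _ => (h01 _ x).1), ?_⟩
  rw [inv_mul_le_iff₀ (by positivity)]
  refine (Finset.sum_le_sum fun k _ => Finset.sum_le_sum fun k' _ => (h01 _ x).2).trans ?_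
  simp only [Finset.sum_const, Finset.card_range, nsmul_eq_mul]
  exact le_of_eq (by ring)

/-- **The induction.** -/
theorem ind (hT : MeasurePreserving T μ μ) {a : ℤ} (ha : a ≠ 0) (B : Finset ℤ) (hB : B.Nonempty) :
    a ∉ B → ∃ A : ℝ, 0 ≤ A ∧ ∃ d : ℤ, d ≠ 0 ∧ ∀ w : ℤ → X → ℂ, (∀ b, Measurable (w b)) →
      (∀ b x, ‖w b x‖ ≤ 1) → ∀ η : ℝ, 0 < η → ∃ β : X → ℝ, Measurable β ∧ (∀ x, 0 ≤ β x ∧ β x ≤ 1) ∧
      (∀ᵐ x ∂μ, Bd (fun v u N H => ‖D (P T (insert a B) w x) v u N H‖) (β x)) ∧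
      ∫ x, β x ^ 2 ^ B.card ∂μ ≤ A * Q μ T d (B.card - 1) (w a) + η := by
  induction hB using Finset.Nonempty.cons_induction with
  | singleton c =>
    intro hac
    have hac' : a ≠ c := by simpa using hac
    refine ⟨1, zero_le_one, a - c, sub_ne_zero.2 hac', fun w hw hw1 η hη => ?_⟩
    have hb1 : ∀ K : ℕ, ∫ x, ‖Av T (a - c) K (w a) x‖ ^ 2 ∂μ ≤ 1 := by
      intro K
      have h2 := norm_integral_le_of_norm_le_const (μ := μ) (C := 1)
        (f := fun x => ‖Av T (a - c) K (w a) x‖ ^ 2) (Eventually.of_forall fun x => by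
          rw [Real.norm_of_nonneg (by positivity)]
          exact pow_le_one₀ (norm_nonneg _) (norm_Av_le zero_le_one (hw1 a) (a - c) K x))
      rw [Real.norm_of_nonneg (integral_nonneg fun x => by positivity)] at h2
      simpa using h2
    obtain ⟨K, hKq, hKp⟩ := ((ls_ev hb1 hη).and (Filter.eventually_gt_atTop 0)).exists
    obtain ⟨φ, hφ⟩ : ∃ φ : X → ℂ, φ = fun y => Av T (a - c) K (w a) y * conj (Av T (a - c) K (w a) y) := ⟨_, rfl⟩
    refine ⟨fun x => Real.sqrt ‖ce μ T 1 φ x‖, (ce_meas μ T 1 φ).norm.sqrt, fun x =>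
      ⟨Real.sqrt_nonneg _, Real.sqrt_le_one.2 (ce_bound μ T 1 zero_le_one φ x)⟩, ?_, ?_⟩
    · filter_upwards [pair_bound hT ha c (hw a) (hw1 a) hKp] with x hx
      rw [← hφ] at hx
      have h1 := Bd_of_BdW (norm_nonneg _) hx (W := fun n h => w c (S T (c * n + h) x))
        (fun n h => hw1 _ _) (fun n h k => inv_W (w c) c x n h k)
      have h2 : ∀ n h : ℤ, P T (insert a {c}) w x n h = w c (S T (c * n + h) x) * orb T (w a) a x n h := by
        intro n h
        unfold P orb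
        rw [Finset.prod_insert (by simpa using hac'), Finset.prod_singleton, mul_comm]
      have h3 : P T (insert a {c}) w x = fun n h => w c (S T (c * n + h) x) * orb T (w a) a x n h := by
        funext n h
        exact h2 n h
      rw [h3]
      exact h1
    · rw [Finset.card_singleton, one_mul, Nat.sub_self, pow_one]
      have h1 : ∀ x, Real.sqrt ‖ce μ T 1 φ x‖ ^ 2 = ‖ce μ T 1 φ x‖ := fun x => Real.sq_sqrt (norm_nonneg _)
      simp only [h1]
      rw [hφ, int_ce (meas_Av (hw a) _ K) (norm_Av_le zero_le_one (hw1 a) _ K)]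
      exact hKq
  | cons c B hc hB ih =>
    intro ha'
    rw [Finset.mem_cons, not_or] at ha'
    obtain ⟨hac, haB⟩ := ha'
    obtain ⟨A, hA, d, hd, H⟩ := ih haB
    obtain ⟨e, he⟩ : ∃ e : ℝ, e = 2 * ((a - c).natAbs + 1) := ⟨_, rfl⟩
    have he0 : 0 ≤ e := by rw [he]; positivity
    refine ⟨A * e, mul_nonneg hA he0, d, hd, fun w hw hw1 η hη => ?_⟩
    have hη' : 0 < η / (2 * (A * e + 1)) := by positivity
    obtain ⟨K, hKq, hKp⟩ := ((avg_Dl (μ := μ) hT d (B.card - 1) (sub_ne_zero.2 hac) (hw1 a) hη').and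
      (Filter.eventually_gt_atTop 0)).exists
    rw [← he] at hKq
    choose β hβm hβ01 hβbd hβint using fun r : ℤ => H (wD T c r w) (fun b => meas_Dl (hw b) _)
      (fun b => norm_Dl_le1 (hw1 b) _) (η / 2) (half_pos hη)
    have hcard : (Finset.cons c B hc).card = B.card + 1 := Finset.card_cons hc
    have hpos : 0 < B.card := hB.card_pos
    refine ⟨fun x => Real.sqrt (((K : ℝ) ^ 2)⁻¹ * ∑ k ∈ range K, ∑ k' ∈ range K, β ((k' : ℤ) - k) x),
      ?_, fun x => ⟨Real.sqrt_nonneg _, Real.sqrt_le_one.2 (mean_01 hβ01 hKp x).2⟩, ?_, ?_⟩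
    · exact ((Finset.measurable_fun_sum _ fun k _ => Finset.measurable_fun_sum _ fun k' _ => hβm _).const_mul _).sqrt
    · filter_upwards [ae_all_iff.2 hβbd] with x hx
      have h1 : BdW (P T (insert a B) w x) c
          (((K : ℝ) ^ 2)⁻¹ * ∑ k ∈ range K, ∑ k' ∈ range K, β ((k' : ℤ) - k) x) := by
        refine step (β := fun r => β r x) (norm_P_le _ hw1 x) (fun r => ?_) hKp
        rw [Cor_P]
        exact hx r
      have h2 := Bd_of_BdW (mean_01 hβ01 hKp x).1 h1 (W := fun n h => w c (S T (c * n + h) x))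
        (fun n h => hw1 _ _) (fun n h k => inv_W (w c) c x n h k)
      have h3 : P T (insert a (Finset.cons c B hc)) w x
          = fun n h => w c (S T (c * n + h) x) * P T (insert a B) w x n h := by
        funext n h
        unfold P
        have h4 : insert a (Finset.cons c B hc) = insert c (insert a B) := by
          rw [Finset.cons_eq_insert, Finset.insert_comm]
        rw [h4, Finset.prod_insert]
        simp only [Finset.mem_insert, not_or]
        exact ⟨fun h => hac h.symm, hc⟩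
      rw [h3]
      exact h2
    · rw [hcard]
      have h1 : ∀ x, Real.sqrt (((K : ℝ) ^ 2)⁻¹ * ∑ k ∈ range K, ∑ k' ∈ range K, β ((k' : ℤ) - k) x) ^ 2 ^ (B.card + 1)
          = (((K : ℝ) ^ 2)⁻¹ * ∑ k ∈ range K, ∑ k' ∈ range K, β ((k' : ℤ) - k) x) ^ 2 ^ B.card := by
        intro x
        rw [pow_succ' 2, pow_mul, Real.sq_sqrt (mean_01 hβ01 hKp x).1]
      simp only [h1]
      have h2 := mean_int (μ := μ) hβm hβ01 hKp (2 ^ B.card)
        (q := fun r => Q μ T d (B.card - 1) (Dl T ((a - c) * r) (w a))) (A := A) (η := η / 2) hβint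
      refine h2.trans ?_
      have h3 : B.card + 1 - 1 = B.card - 1 + 1 := by omega
      rw [h3]
      have h4 := mul_le_mul_of_nonneg_left hKq hA
      have h5 : A * (e * (Q μ T d (B.card - 1 + 1) (w a) + η / (2 * (A * e + 1))))
          ≤ A * e * Q μ T d (B.card - 1 + 1) (w a) + η / 2 := by
        have h6 : A * e * (η / (2 * (A * e + 1))) ≤ η / 2 := by
          rw [← mul_div_assoc, div_le_div_iff₀ (by positivity) (by norm_num)]
          nlinarith [mul_nonneg hA he0]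
        nlinarith
      linarith

end Pool.Agent.V8H53.Sta
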