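import Pool.Agent.V8H53.Sta.Fin

/-!
# Families of functions
-/

set_option autoImplicit false
set_option linter.unusedSectionVars false

open MeasureTheory Filter Topology Finset
open scoped ENNReal ComplexConjugate

namespace Pool.Agent.V8H53.Sta

variable {X : Type*} [MeasurableSpace X] {μ : Measure X} [IsProbabilityMeasure μ] {T : X ≃ᵐ X}

/-- products along the orbit of `x` for a family of functions -/
noncomputable def PF (T : X ≃ᵐ X) {m : ℕ} (a : Fin m → ℤ) (f : Fin m → X → ℂ) (x : X) : ℤ → ℤ → ℂ :=
  fun n h => ∏ j, f j (S T (a j * n + h) x)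

lemma norm_PF_le {m : ℕ} (a : Fin m → ℤ) {f : Fin m → X → ℂ} {R : ℝ} (hf : ∀ j x, ‖f j x‖ ≤ R)
    (x : X) (n h : ℤ) : ‖PF T a f x n h‖ ≤ R ^ m := by
  unfold PF
  rw [norm_prod]
  refine (Finset.prod_le_prod (fun _ _ => norm_nonneg _) fun _ _ => hf _ _).trans (le_of_eq ?_)
  rw [Finset.prod_const, Finset.card_univ, Fintype.card_fin]

lemma fam_MS (hT : MeasurePreserving T μ μ) {m : ℕ} (hm : 2 ≤ m) {a : Fin m → ℤ}
    (hinj : Function.Injective a) (ha0 : ∀ j, a j ≠ 0) {f : Fin m → X → ℂ} (hf : ∀ j, Measurable (f j))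
    {R : ℝ} (hR : 0 < R) (hfR : ∀ j x, ‖f j x‖ ≤ R) {i : Fin m} (hQ : Q μ T 1 (m - 1) (f i) = 0) :
    ∀ᵐ x ∂μ, MS (PF T a f x) := by
  classical
  obtain ⟨B, hB⟩ : ∃ B : Finset ℤ, B = Finset.univ.image a := ⟨_, rfl⟩
  have hcard : B.card = m := by
    rw [hB, Finset.card_image_of_injective _ hinj, Finset.card_univ, Fintype.card_fin]
  obtain ⟨w, hw⟩ : ∃ w : ℤ → X → ℂ, w = Function.extend a (fun j x => (R : ℂ)⁻¹ * f j x) (fun _ _ => 1) :=
    ⟨_, rfl⟩
  have hwa : ∀ j, w (a j) = fun x => (R : ℂ)⁻¹ * f j x := by
    intro j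
    rw [hw, hinj.extend_apply]
  have hwm : ∀ b, Measurable (w b) := by
    intro b
    by_cases hb : ∃ j, a j = b
    · obtain ⟨j, rfl⟩ := hb
      rw [hwa]
      exact (hf j).const_mul _
    · rw [hw, Function.extend_apply' _ _ _ hb]
      exact measurable_const
  have hw1 : ∀ b x, ‖w b x‖ ≤ 1 := by
    intro b x
    by_cases hb : ∃ j, a j = b
    · obtain ⟨j, rfl⟩ := hb
      rw [hwa]
      simp only
      rw [norm_mul, norm_inv, Complex.norm_real, Real.norm_of_nonneg hR.le, inv_mul_le_iff₀ hR, mul_one]
      exact hfR j x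
    · rw [hw, Function.extend_apply' _ _ _ hb]
      simp
  have hQw : Q μ T 1 (B.card - 1) (w (a i)) = 0 := by
    rw [hwa, hcard, Q_smul 1 (m - 1) (f i) R hR.le (hfR i), hQ, mul_zero]
  have hiB : a i ∈ B := by
    rw [hB]
    exact Finset.mem_image_of_mem _ (Finset.mem_univ _)
  filter_upwards [core hT (by rw [hcard]; exact hm) hiB (ha0 i) hwm hw1 hQw] with x hx
  have h1 := MS_const_mul (MS_of_BdW (norm_P_le B hw1 x) hx) ((R : ℂ) ^ m)
  have h2 : (fun n h => (R : ℂ) ^ m * P T B w x n h) = PF T a f x := by
    funext n h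
    unfold P PF
    rw [hB, Finset.prod_image fun _ _ _ _ h => hinj h]
    simp only [hwa]
    rw [Finset.prod_mul_distrib, Finset.prod_const, Finset.card_univ, Fintype.card_fin, ← mul_assoc,
      ← mul_pow, mul_inv_cancel₀ (by exact_mod_cast hR.ne'), one_pow, one_mul]
  rw [h2] at h1
  exact h1

lemma PF_split {m : ℕ} (a : Fin m → ℤ) (f : Fin m → X → ℂ) (x : X) (n h : ℤ) (i : Fin m) :
    PF T a f x n h = f i (S T (a i * n + h) x) * ∏ j ∈ Finset.univ.erase i, f j (S T (a j * n + h) x) := by
  unfold PF
  exact (Finset.mul_prod_erase Finset.univ (fun j => f j (S T (a j * n + h) x)) (Finset.mem_univ i)).symm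

theorem fam_diff (hT : MeasurePreserving T μ μ) {m : ℕ} (hm : 2 ≤ m) {a : Fin m → ℤ}
    (hinj : Function.Injective a) (ha0 : ∀ j, a j ≠ 0) {f g : Fin m → X → ℂ} (hf : ∀ j, Measurable (f j))
    (hg : ∀ j, Measurable (g j)) {R : ℝ} (hR : 0 < R) (hfR : ∀ j x, ‖f j x‖ ≤ R) (hgR : ∀ j x, ‖g j x‖ ≤ R)
    (hQ : ∀ j, Q μ T 1 (m - 1) (fun x => f j x - g j x) = 0) :
    ∀ᵐ x ∂μ, MS (fun n h => PF T a f x n h - PF T a g x n h) := by
  classical
  have key : ∀ s : Finset (Fin m), ∀ᵐ x ∂μ,
      MS (fun n h => PF T a f x n h - PF T a (fun j => if j ∈ s then g j else f j) x n h) := by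
    intro s
    induction s using Finset.induction_on with
    | empty =>
      refine Eventually.of_forall fun x => ?_
      have h1 : (fun j => if j ∈ (∅ : Finset (Fin m)) then g j else f j) = f := by
        funext j
        simp
      rw [h1]
      simp only [sub_self]
      exact MS_zero
    | insert i s hi ih =>
      obtain ⟨h', hh'⟩ : ∃ h' : Fin m → X → ℂ, h' = fun j => if j ∈ s then g j else f j := ⟨_, rfl⟩
      have hi' : h' i = f i := by rw [hh']; simp [hi]
      have hmh : ∀ j, Measurable (h' j) := by
        intro j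
        rw [hh']
        simp only
        split_ifs
        · exact hg j
        · exact hf j
      have hbh : ∀ j x, ‖h' j x‖ ≤ R := by
        intro j x
        rw [hh']
        simp only
        split_ifs
        · exact hgR j x
        · exact hfR j x
      obtain ⟨u, hu⟩ : ∃ u : Fin m → X → ℂ, u = Function.update h' i (fun x => f i x - g i x) := ⟨_, rfl⟩
      have hui : u i = fun x => f i x - g i x := by rw [hu, Function.update_self]
      have huj : ∀ j, j ≠ i → u j = h' j := by
        intro j hj
        rw [hu, Function.update_of_ne hj]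
      have hum : ∀ j, Measurable (u j) := by
        intro j
        by_cases hj : j = i
        · rw [hj, hui]
          exact (hf i).sub (hg i)
        · rw [huj j hj]
          exact hmh j
      have hub : ∀ j x, ‖u j x‖ ≤ 2 * R := by
        intro j x
        by_cases hj : j = i
        · rw [hj, hui]
          simp only
          have := (norm_sub_le (f i x) (g i x)).trans (add_le_add (hfR i x) (hgR i x))
          linarith
        · rw [huj j hj]
          have := hbh j x
          linarith
      have hQu : Q μ T 1 (m - 1) (u i) = 0 := by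
        rw [hui]
        exact hQ i
      filter_upwards [ih, fam_MS hT hm hinj ha0 hum (R := 2 * R) (by positivity) hub hQu] with x h1 h2
      rw [← hh'] at h1
      have h3 := MS_add h1 h2
      have h4 : (fun n h => (PF T a f x n h - PF T a h' x n h) + PF T a u x n h)
          = fun n h => PF T a f x n h - PF T a (fun j => if j ∈ insert i s then g j else f j) x n h := by
        funext n h
        rw [PF_split a h' x n h i, PF_split a u x n h i,
          PF_split a (fun j => if j ∈ insert i s then g j else f j) x n h i, hi', hui]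
        have e1 : ∏ j ∈ Finset.univ.erase i, u j (S T (a j * n + h) x)
            = ∏ j ∈ Finset.univ.erase i, h' j (S T (a j * n + h) x) :=
          Finset.prod_congr rfl fun j hj => by rw [huj j (Finset.ne_of_mem_erase hj)]
        have e2 : ∏ j ∈ Finset.univ.erase i, (fun j => if j ∈ insert i s then g j else f j) j (S T (a j * n + h) x)
            = ∏ j ∈ Finset.univ.erase i, h' j (S T (a j * n + h) x) := by
          refine Finset.prod_congr rfl fun j hj => ?_
          have hji := Finset.ne_of_mem_erase hj
          rw [hh']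
          simp only [Finset.mem_insert, hji, false_or]
        rw [e1, e2]
        simp only [Finset.mem_insert, true_or, if_true]
        ring
      rw [h4] at h3
      exact h3
  filter_upwards [key Finset.univ] with x hx
  have h1 : (fun j => if j ∈ (Finset.univ : Finset (Fin m)) then g j else f j) = g := by
    funext j
    simp
  rw [h1] at hx
  exact hx

end Pool.Agent.V8H53.Sta
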