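import Pool.Agent.V8H53.Sta.Core

/-!
# From mean squares to exceptional sets; families of functions
-/

set_option autoImplicit false
set_option linter.unusedSectionVars false

open MeasureTheory Filter Topology Finset
open scoped ENNReal ComplexConjugate

namespace Pool.Agent.V8H53.Sta

/-- block averages in the first variable -/
noncomputable def blk (p : ℤ → ℤ → ℂ) (v : ℤ) (N : ℕ) (h : ℤ) : ℂ :=
  (N : ℂ)⁻¹ * ∑ n ∈ range N, p (v + n) h

/-- small mean squares over all windows -/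
def MS (p : ℤ → ℤ → ℂ) : Prop :=
  ∀ C : ℕ, ∀ δ : ℝ, 0 < δ → ∃ M : ℕ, ∀ N H : ℕ, M ≤ N → M ≤ H → ∀ v u : ℤ,
    |v| ≤ (C * max N H : ℕ) → |u| ≤ (C * max N H : ℕ) →
    (H : ℝ)⁻¹ * ∑ h ∈ range H, ‖blk p v N (u + h)‖ ^ 2 ≤ δ

lemma norm_blk_le {p : ℤ → ℤ → ℂ} {B : ℝ} (hB : 0 ≤ B) (hp : ∀ n h, ‖p n h‖ ≤ B) (v : ℤ) (N : ℕ) (h : ℤ) :
    ‖blk p v N h‖ ≤ B := by
  unfold blk
  rcases Nat.eq_zero_or_pos N with rfl | hN
  · simpa using hB
  have hN' : (0 : ℝ) < N := by exact_mod_cast hN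
  rw [norm_mul, norm_inv, Complex.norm_natCast, inv_mul_le_iff₀ hN']
  refine (norm_sum_le_of_le _ fun i _ => hp _ _).trans ?_
  rw [Finset.sum_const, Finset.card_range, nsmul_eq_mul]

lemma MS_of_BdW {V : ℤ → ℤ → ℂ} (hV : ∀ n h, ‖V n h‖ ≤ 1) (h : BdW V 0 0) : MS V := by
  intro C δ hδ
  obtain ⟨M, hM⟩ := h C (δ ^ 2) (by positivity)
  refine ⟨M, fun N H hN hH v u hv hu => ?_⟩
  have h1 := hM N H hN hH v u hv hu (fun _ h => conj (blk V v N h))
    (fun _ h => by rw [RCLike.norm_conj]; exact norm_blk_le zero_le_one hV v N h)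
    (fun n h k => by simp)
  have h2 : D (fun n h => conj (blk V v N h) * V n h) v u N H
      = (((H : ℝ)⁻¹ * ∑ h ∈ range H, ‖blk V v N (u + h)‖ ^ 2 : ℝ) : ℂ) := by
    have h3 : ∀ h : ℤ, ((‖blk V v N h‖ ^ 2 : ℝ) : ℂ) = (N : ℂ)⁻¹ * ∑ n ∈ range N, conj (blk V v N h) * V (v + n) h := by
      intro h
      rw [← Complex.normSq_eq_norm_sq, ← Complex.mul_conj, ← Finset.mul_sum]
      unfold blk
      ring
    rw [Complex.ofReal_mul, Complex.ofReal_sum]
    simp only [h3]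
    unfold D
    rw [Finset.sum_comm, ← Finset.mul_sum]
    push_cast
    ring
  rw [h2, Complex.norm_real, Real.norm_of_nonneg (mul_nonneg (by positivity)
    (Finset.sum_nonneg fun _ _ => by positivity)), zero_add] at h1
  exact (pow_le_pow_iff_left₀ (mul_nonneg (by positivity)
    (Finset.sum_nonneg fun _ _ => by positivity)) hδ.le two_ne_zero).1 h1

lemma MS_const_mul {p : ℤ → ℤ → ℂ} (hp : MS p) (c : ℂ) : MS (fun n h => c * p n h) := by
  intro C δ hδ
  obtain ⟨M, hM⟩ := hp C (δ / (‖c‖ ^ 2 + 1)) (by positivity)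
  refine ⟨M, fun N H hN hH v u hv hu => ?_⟩
  have h1 := hM N H hN hH v u hv hu
  have h2 : ∀ h : ℤ, blk (fun n h => c * p n h) v N h = c * blk p v N h := by
    intro h
    unfold blk
    rw [← Finset.mul_sum]
    ring
  simp only [h2, norm_mul, mul_pow]
  rw [← Finset.mul_sum, mul_left_comm]
  calc ‖c‖ ^ 2 * ((H : ℝ)⁻¹ * ∑ h ∈ range H, ‖blk p v N (u + h)‖ ^ 2)
      ≤ ‖c‖ ^ 2 * (δ / (‖c‖ ^ 2 + 1)) := by gcongr
    _ ≤ δ := by
      rw [← mul_div_assoc, div_le_iff₀ (by positivity)]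
      nlinarith

lemma MS_add {p q : ℤ → ℤ → ℂ} (hp : MS p) (hq : MS q) : MS (fun n h => p n h + q n h) := by
  intro C δ hδ
  obtain ⟨M, hM⟩ := hp C (δ / 4) (by positivity)
  obtain ⟨M', hM'⟩ := hq C (δ / 4) (by positivity)
  refine ⟨M + M', fun N H hN hH v u hv hu => ?_⟩
  have h1 := hM N H (by omega) (by omega) v u hv hu
  have h1' := hM' N H (by omega) (by omega) v u hv hu
  have h2 : ∀ h : ℤ, blk (fun n h => p n h + q n h) v N h = blk p v N h + blk q v N h := by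
    intro h
    unfold blk
    rw [Finset.sum_add_distrib]
    ring
  simp only [h2]
  have h3 : ∑ h ∈ range H, ‖blk p v N (u + h) + blk q v N (u + h)‖ ^ 2
      ≤ 2 * ∑ h ∈ range H, ‖blk p v N (u + h)‖ ^ 2 + 2 * ∑ h ∈ range H, ‖blk q v N (u + h)‖ ^ 2 := by
    rw [Finset.mul_sum, Finset.mul_sum, ← Finset.sum_add_distrib]
    refine Finset.sum_le_sum fun h _ => ?_
    have g1 := norm_add_le (blk p v N (u + h)) (blk q v N (u + h))
    have g2 := norm_nonneg (blk p v N (u + h) + blk q v N (u + h))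
    nlinarith [sq_nonneg (‖blk p v N (u + h)‖ - ‖blk q v N (u + h)‖), norm_nonneg (blk p v N (u + h)),
      norm_nonneg (blk q v N (u + h))]
  calc (H : ℝ)⁻¹ * ∑ h ∈ range H, ‖blk p v N (u + h) + blk q v N (u + h)‖ ^ 2
      ≤ (H : ℝ)⁻¹ * (2 * ∑ h ∈ range H, ‖blk p v N (u + h)‖ ^ 2
        + 2 * ∑ h ∈ range H, ‖blk q v N (u + h)‖ ^ 2) := by gcongr
    _ = 2 * ((H : ℝ)⁻¹ * ∑ h ∈ range H, ‖blk p v N (u + h)‖ ^ 2)
        + 2 * ((H : ℝ)⁻¹ * ∑ h ∈ range H, ‖blk q v N (u + h)‖ ^ 2) := by ring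
    _ ≤ δ := by linarith

lemma MS_zero : MS (fun _ _ => 0) := by
  intro C δ hδ
  refine ⟨0, fun N H _ _ v u _ _ => ?_⟩
  have h2 : ∀ h : ℤ, blk (fun _ _ => (0 : ℂ)) v N h = 0 := by
    intro h
    unfold blk
    simp
  simp only [h2]
  simpa using hδ.le

/-- comparison of two averages of one sequence -/
lemma avg_diff {p : ℕ → ℂ} {B : ℝ} (hp : ∀ n, ‖p n‖ ≤ B) {N N' : ℕ} (hN : 0 < N) (hNN : N ≤ N') :
    ‖(N' : ℂ)⁻¹ * ∑ n ∈ range N', p n - (N : ℂ)⁻¹ * ∑ n ∈ range N, p n‖ ≤ 2 * B * ((N' : ℝ) - N) / N' := by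
  obtain ⟨s, rfl⟩ := Nat.exists_eq_add_of_le hNN
  have hN' : (0 : ℝ) < N := by exact_mod_cast hN
  have hNs : (0 : ℝ) < ((N + s : ℕ) : ℝ) := by positivity
  have hNc : (N : ℂ) ≠ 0 := by exact_mod_cast hN.ne'
  have hNsc : ((N + s : ℕ) : ℂ) ≠ 0 := by exact_mod_cast (by omega : N + s ≠ 0)
  have e1 : ((N + s : ℕ) : ℂ)⁻¹ * ∑ n ∈ range (N + s), p n - (N : ℂ)⁻¹ * ∑ n ∈ range N, p n
      = ((N + s : ℕ) : ℂ)⁻¹ * ∑ n ∈ range s, p (N + n)
        - (s : ℂ) * ((N + s : ℕ) : ℂ)⁻¹ * ((N : ℂ)⁻¹ * ∑ n ∈ range N, p n) := by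
    rw [Finset.sum_range_add]
    field_simp
    push_cast
    ring
  rw [e1]
  have h1 : ‖((N + s : ℕ) : ℂ)⁻¹ * ∑ n ∈ range s, p (N + n)‖ ≤ ((N + s : ℕ) : ℝ)⁻¹ * (s * B) := by
    rw [norm_mul, norm_inv, Complex.norm_natCast]
    gcongr
    refine (norm_sum_le_of_le _ fun i _ => hp _).trans ?_
    rw [Finset.sum_const, Finset.card_range, nsmul_eq_mul]
  have h2 : ‖(N : ℂ)⁻¹ * ∑ n ∈ range N, p n‖ ≤ B := by
    rw [norm_mul, norm_inv, Complex.norm_natCast, inv_mul_le_iff₀ hN']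
    refine (norm_sum_le_of_le _ fun i _ => hp _).trans ?_
    rw [Finset.sum_const, Finset.card_range, nsmul_eq_mul]
  have h3 : ‖(s : ℂ) * ((N + s : ℕ) : ℂ)⁻¹ * ((N : ℂ)⁻¹ * ∑ n ∈ range N, p n)‖
      ≤ s * ((N + s : ℕ) : ℝ)⁻¹ * B := by
    rw [norm_mul, norm_mul, norm_inv, Complex.norm_natCast, Complex.norm_natCast]
    gcongr
  refine (norm_sub_le _ _).trans ((add_le_add h1 h3).trans (le_of_eq ?_))
  push_cast
  field_simp
  ring

open Classical in
/-- **Exceptional sets.** -/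
theorem exc {p : ℤ → ℤ → ℂ} (hp : MS p) {B : ℝ} (hB : 0 < B) (hpB : ∀ n h, ‖p n h‖ ≤ B) (C : ℕ) {ε : ℝ}
    (hε : 0 < ε) : ∃ M : ℕ, 0 < M ∧ ∀ N H : ℕ, M ≤ N → M ≤ H → ∀ v u : ℤ, |v| ≤ (C * max N H : ℕ) →
    |u| ≤ (C * max N H : ℕ) →
    (((range H).filter fun h : ℕ => ∃ N', N ≤ N' ∧ N' ≤ C * N ∧ ε < ‖blk p v N' (u + h)‖).card : ℝ) ≤ ε * H := by
  obtain ⟨I, hI⟩ := exists_nat_gt ((C : ℝ) * (8 * B) / ε)
  obtain ⟨M, hM⟩ := hp C (ε ^ 3 / (4 * (I + 1))) (by positivity)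
  obtain ⟨M1, hM1⟩ := exists_nat_gt (8 * B / ε)
  refine ⟨M + M1 + 1, by omega, fun N H hN hH v u hv hu => ?_⟩
  have hNp : 0 < N := by omega
  have hHp : 0 < H := by omega
  have hN' : (0 : ℝ) < N := by exact_mod_cast hNp
  have hH' : (0 : ℝ) < H := by exact_mod_cast hHp
  -- the step of the grid
  obtain ⟨s, hs⟩ : ∃ s : ℕ, s = ⌊ε / (8 * B) * N⌋₊ + 1 := ⟨_, rfl⟩
  have hs0 : 0 < s := by omega
  have hs' : (0 : ℝ) < s := by exact_mod_cast hs0
  have hs1 : ε / (8 * B) * N < s := by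
    rw [hs]
    push_cast
    exact Nat.lt_floor_add_one _
  have hs2 : (s : ℝ) ≤ ε / (4 * B) * N := by
    have h1 : (s : ℝ) ≤ ε / (8 * B) * N + 1 := by
      rw [hs]
      push_cast
      have := Nat.floor_le (a := ε / (8 * B) * N) (by positivity)
      linarith
    have h2 : 1 ≤ ε / (8 * B) * N := by
      have h3 : (M1 : ℝ) ≤ N := by exact_mod_cast (by omega : M1 ≤ N)
      have h4 := hM1.trans_le h3
      rw [div_lt_iff₀ hε] at h4
      rw [div_mul_eq_mul_div, le_div_iff₀ (by positivity)]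
      linarith
    have h5 : ε / (4 * B) * N = ε / (8 * B) * N + ε / (8 * B) * N := by
      field_simp
      ring
    linarith
  have hsub : ((range H).filter fun h : ℕ => ∃ N', N ≤ N' ∧ N' ≤ C * N ∧ ε < ‖blk p v N' (u + h)‖) ⊆
      (range (I + 1)).biUnion fun i => (range H).filter fun h : ℕ => ε / 2 < ‖blk p v (N + i * s) (u + h)‖ := by
    intro h hh
    rw [Finset.mem_filter] at hh
    obtain ⟨hh1, N', hN1, hN2, hN3⟩ := hh
    rw [Finset.mem_biUnion]
    obtain ⟨i, hi⟩ : ∃ i : ℕ, i = (N' - N) / s := ⟨_, rfl⟩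
    have hdiv := Nat.div_add_mod (N' - N) s
    have hmod := Nat.mod_lt (N' - N) hs0
    rw [← hi] at hdiv
    have hle : N + i * s ≤ N' := by
      rw [mul_comm s i] at hdiv
      omega
    have hlt : N' < N + i * s + s := by
      rw [mul_comm s i] at hdiv
      omega
    refine ⟨i, Finset.mem_range.2 (Nat.lt_succ_of_le ?_), ?_⟩
    · -- the index is at most `I`
      have h1 : (i : ℝ) * s ≤ C * N := by
        have : i * s ≤ C * N := by omega
        exact_mod_cast this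
      have h2 : (i : ℝ) * (ε / (8 * B) * N) ≤ C * N := by
        refine le_trans ?_ h1
        gcongr
      have h3 : (i : ℝ) ≤ C * (8 * B) / ε := by
        rw [le_div_iff₀ hε]
        have h4 : (i : ℝ) * ε * N ≤ C * (8 * B) * N := by
          have h5 : (i : ℝ) * (ε / (8 * B) * N) = (i : ℝ) * ε * N / (8 * B) := by ring
          rw [h5, div_le_iff₀ (by positivity)] at h2
          linarith
        exact le_of_mul_le_mul_right h4 hN'
      exact_mod_cast (h3.trans_lt hI).le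
    · rw [Finset.mem_filter]
      refine ⟨hh1, ?_⟩
      have h1 := avg_diff (p := fun n : ℕ => p (v + n) (u + h)) (fun n => hpB _ _)
        (N := N + i * s) (N' := N') (by omega) hle
      have h2 : 2 * B * ((N' : ℝ) - ((N + i * s : ℕ) : ℝ)) / N' ≤ ε / 2 := by
        have h3 : (N' : ℝ) - ((N + i * s : ℕ) : ℝ) ≤ s := by
          have : (N' : ℝ) ≤ ((N + i * s + s : ℕ) : ℝ) := by exact_mod_cast hlt.le
          push_cast at this ⊢
          linarith
        have h4 : (N : ℝ) ≤ N' := by exact_mod_cast hN1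
        have h5 : (0 : ℝ) < N' := hN'.trans_le h4
        rw [div_le_iff₀ h5]
        calc 2 * B * ((N' : ℝ) - ((N + i * s : ℕ) : ℝ)) ≤ 2 * B * (ε / (4 * B) * N) := by
              have := h3.trans hs2
              gcongr
          _ = ε / 2 * N := by
            field_simp
            ring
          _ ≤ ε / 2 * N' := by gcongr
      have h3 : ‖blk p v N' (u + h)‖ ≤ ‖blk p v (N + i * s) (u + h)‖ + ε / 2 := by
        have h4 := norm_sub_norm_le (blk p v N' (u + h)) (blk p v (N + i * s) (u + h))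
        have h5 : ‖blk p v N' (u + h) - blk p v (N + i * s) (u + h)‖ ≤ ε / 2 := h1.trans h2
        linarith
      linarith
  have hone : ∀ i ∈ range (I + 1), (((range H).filter fun h : ℕ => ε / 2 < ‖blk p v (N + i * s) (u + h)‖).card : ℝ)
      ≤ ε / (I + 1) * H := by
    intro i _
    have hNi : N ≤ N + i * s := Nat.le_add_right _ _
    have hmax : C * max N H ≤ C * max (N + i * s) H := Nat.mul_le_mul_left _ (max_le_max hNi le_rfl)
    have hmax' : ((C * max N H : ℕ) : ℤ) ≤ ((C * max (N + i * s) H : ℕ) : ℤ) := by exact_mod_cast hmax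
    have h1 := hM (N + i * s) H (by omega) (by omega) v u (hv.trans hmax') (hu.trans hmax')
    rw [inv_mul_le_iff₀ hH'] at h1
    have h2 : (((range H).filter fun h : ℕ => ε / 2 < ‖blk p v (N + i * s) (u + h)‖).card : ℝ) * (ε / 2) ^ 2
        ≤ ∑ h ∈ range H, ‖blk p v (N + i * s) (u + h)‖ ^ 2 := by
      rw [← nsmul_eq_mul]
      refine (Finset.card_nsmul_le_sum _ (fun h : ℕ => ‖blk p v (N + i * s) (u + h)‖ ^ 2) _ fun h hh => ?_).trans
        (Finset.sum_le_sum_of_subset_of_nonneg (Finset.filter_subset _ _) fun _ _ _ => by positivity)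
      have := (Finset.mem_filter.1 hh).2
      exact pow_le_pow_left₀ (by positivity) this.le 2
    have h3 := h2.trans h1
    have h4 : (((range H).filter fun h : ℕ => ε / 2 < ‖blk p v (N + i * s) (u + h)‖).card : ℝ)
        ≤ (H * (ε ^ 3 / (4 * (I + 1)))) / (ε / 2) ^ 2 := by
      rw [le_div_iff₀ (by positivity)]
      exact h3
    refine h4.trans (le_of_eq ?_)
    field_simp
    ring
  calc (((range H).filter fun h : ℕ => ∃ N', N ≤ N' ∧ N' ≤ C * N ∧ ε < ‖blk p v N' (u + h)‖).card : ℝ)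
      ≤ ((((range (I + 1)).biUnion fun i => (range H).filter fun h : ℕ =>
        ε / 2 < ‖blk p v (N + i * s) (u + h)‖).card : ℕ) : ℝ) := by exact_mod_cast Finset.card_le_card hsub
    _ ≤ ∑ i ∈ range (I + 1), (((range H).filter fun h : ℕ => ε / 2 < ‖blk p v (N + i * s) (u + h)‖).card : ℝ) := by
        exact_mod_cast Finset.card_biUnion_le
    _ ≤ ∑ i ∈ range (I + 1), ε / (I + 1) * H := Finset.sum_le_sum hone
    _ = ε * H := by
        rw [Finset.sum_const, Finset.card_range, nsmul_eq_mul]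
        push_cast
        field_simp

end Pool.Agent.V8H53.Sta
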