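import Pool.Agent.V8H53.Sta.Act

/-!
# The seminorms
-/

set_option autoImplicit false
set_option linter.unusedSectionVars false

open MeasureTheory Filter Topology Finset
open scoped ENNReal ComplexConjugate

namespace Pool.Agent.V8H53.Sta

/-! ### Limits superior of bounded sequences -/

lemma ls_ev {u : ℕ → ℝ} {B : ℝ} (hb : ∀ n, u n ≤ B) {δ : ℝ} (hδ : 0 < δ) :
    ∀ᶠ n in atTop, u n ≤ limsup u atTop + δ := by
  have h : limsup u atTop < limsup u atTop + δ := by linarith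
  exact (Filter.eventually_lt_of_limsup_lt h (isBoundedUnder_of ⟨B, hb⟩)).mono fun n hn => hn.le

lemma ls_le {u : ℕ → ℝ} {A : ℝ} (hb : ∀ n, A ≤ u n) {q : ℝ}
    (h : ∀ δ : ℝ, 0 < δ → ∀ᶠ n in atTop, u n ≤ q + δ) : limsup u atTop ≤ q :=
  le_of_forall_pos_le_add fun δ hδ =>
    Filter.limsup_le_of_le (Filter.isCoboundedUnder_le_of_le atTop hb) (h δ hδ)

lemma ls_ge {u : ℕ → ℝ} {A B : ℝ} (h0 : ∀ n, A ≤ u n) (hb : ∀ n, u n ≤ B) : A ≤ limsup u atTop := by
  refine le_of_forall_pos_le_add fun δ hδ => ?_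
  obtain ⟨n, hn⟩ := (ls_ev hb hδ).exists
  exact (h0 n).trans hn

variable {X : Type*} [MeasurableSpace X]

/-- `g` times the conjugate of its shift -/
noncomputable def Dl (T : X ≃ᵐ X) (r : ℤ) (g : X → ℂ) : X → ℂ := fun x => g x * conj (g (S T r x))

/-- averages along an arithmetic progression of times -/
noncomputable def Av (T : X ≃ᵐ X) (d : ℤ) (K : ℕ) (g : X → ℂ) : X → ℂ :=
  fun x => (K : ℂ)⁻¹ * ∑ k ∈ range K, g (S T (d * k) x)

/-- the seminorms (to the power `2 ^ (t + 1)`), with innermost step `d` -/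
noncomputable def Q (μ : Measure X) (T : X ≃ᵐ X) (d : ℤ) : ℕ → (X → ℂ) → ℝ
  | 0, g => limsup (fun K : ℕ => ∫ x, ‖Av T d K g x‖ ^ 2 ∂μ) atTop
  | t + 1, g => limsup (fun R : ℕ => (R : ℝ)⁻¹ * ∑ r ∈ range R, Q μ T d t (Dl T r g)) atTop

section basic

variable {μ : Measure X} [IsProbabilityMeasure μ] {T : X ≃ᵐ X}

lemma norm_Dl_le {g : X → ℂ} {C : ℝ} (hC : ∀ x, ‖g x‖ ≤ C) (r : ℤ) (x : X) : ‖Dl T r g x‖ ≤ C * C := by
  unfold Dl
  rw [norm_mul, RCLike.norm_conj]
  exact mul_le_mul (hC _) (hC _) (norm_nonneg _) ((norm_nonneg _).trans (hC x))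

lemma norm_Dl_le1 {g : X → ℂ} (hC : ∀ x, ‖g x‖ ≤ 1) (r : ℤ) (x : X) : ‖Dl T r g x‖ ≤ 1 := by
  simpa using norm_Dl_le (T := T) hC r x

lemma meas_Dl {g : X → ℂ} (hg : Measurable g) (r : ℤ) : Measurable (Dl T r g) :=
  hg.mul ((RCLike.continuous_conj.measurable).comp (hg.comp (S_meas T r)))

lemma norm_Av_le {g : X → ℂ} {C : ℝ} (hC0 : 0 ≤ C) (hC : ∀ x, ‖g x‖ ≤ C) (d : ℤ) (K : ℕ) (x : X) :
    ‖Av T d K g x‖ ≤ C := by
  unfold Av
  rcases Nat.eq_zero_or_pos K with rfl | hK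
  · simpa using hC0
  have hK' : (0 : ℝ) < K := by exact_mod_cast hK
  rw [norm_mul, norm_inv, Complex.norm_natCast, inv_mul_le_iff₀ hK']
  refine (norm_sum_le_of_le _ fun i _ => hC _).trans ?_
  rw [Finset.sum_const, Finset.card_range, nsmul_eq_mul]

lemma meas_Av {g : X → ℂ} (hg : Measurable g) (d : ℤ) (K : ℕ) : Measurable (Av T d K g) := by
  unfold Av
  exact (Finset.measurable_fun_sum (range K) fun (i : ℕ) _ => hg.comp (S_meas T (d * (i : ℤ)))).const_mul _

lemma Q_bd (d : ℤ) (t : ℕ) : ∀ (g : X → ℂ) (C : ℝ), 0 ≤ C → (∀ x, ‖g x‖ ≤ C) →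
    0 ≤ Q μ T d t g ∧ Q μ T d t g ≤ C ^ 2 ^ (t + 1) := by
  induction t with
  | zero =>
    intro g C hC0 hC
    have h0 : ∀ K : ℕ, 0 ≤ ∫ x, ‖Av T d K g x‖ ^ 2 ∂μ := fun K =>
      integral_nonneg fun x => by positivity
    have h1 : ∀ K : ℕ, ∫ x, ‖Av T d K g x‖ ^ 2 ∂μ ≤ C ^ 2 := by
      intro K
      have h2 := norm_integral_le_of_norm_le_const (μ := μ) (C := C ^ 2)
        (f := fun x => ‖Av T d K g x‖ ^ 2) (Eventually.of_forall fun x => by
          rw [Real.norm_of_nonneg (by positivity)]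
          exact pow_le_pow_left₀ (norm_nonneg _) (norm_Av_le hC0 hC d K x) 2)
      rw [Real.norm_of_nonneg (h0 K)] at h2
      simpa using h2
    refine ⟨ls_ge h0 h1, ls_le h0 fun δ hδ => Eventually.of_forall fun K => ?_⟩
    have := h1 K
    simp only [zero_add, pow_one]
    linarith
  | succ t ih =>
    intro g C hC0 hC
    have h2 : ∀ r : ℤ, 0 ≤ Q μ T d t (Dl T r g) ∧ Q μ T d t (Dl T r g) ≤ C ^ 2 ^ (t + 1 + 1) := by
      intro r
      obtain ⟨e1, e2⟩ := ih (Dl T r g) (C * C) (by positivity) (norm_Dl_le hC r)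
      refine ⟨e1, e2.trans (le_of_eq ?_)⟩
      rw [← sq, ← pow_mul]
      congr 1
      ring
    have h0 : ∀ R : ℕ, 0 ≤ (R : ℝ)⁻¹ * ∑ r ∈ range R, Q μ T d t (Dl T r g) := fun R =>
      mul_nonneg (by positivity) (Finset.sum_nonneg fun r _ => (h2 r).1)
    have h1 : ∀ R : ℕ, (R : ℝ)⁻¹ * ∑ r ∈ range R, Q μ T d t (Dl T r g) ≤ C ^ 2 ^ (t + 1 + 1) := by
      intro R
      rcases Nat.eq_zero_or_pos R with rfl | hR
      · simp
        positivity
      have hR' : (0 : ℝ) < R := by exact_mod_cast hR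
      rw [inv_mul_le_iff₀ hR']
      refine (Finset.sum_le_sum fun (r : ℕ) _ => (h2 (r : ℤ)).2).trans ?_
      rw [Finset.sum_const, Finset.card_range, nsmul_eq_mul]
    refine ⟨ls_ge h0 h1, ls_le h0 fun δ hδ => Eventually.of_forall fun K => ?_⟩
    have := h1 K
    linarith

lemma Q_nonneg (d : ℤ) (t : ℕ) {g : X → ℂ} (hC : ∀ x, ‖g x‖ ≤ 1) : 0 ≤ Q μ T d t g :=
  (Q_bd d t g 1 zero_le_one hC).1

lemma Q_le_one (d : ℤ) (t : ℕ) {g : X → ℂ} (hC : ∀ x, ‖g x‖ ≤ 1) : Q μ T d t g ≤ 1 := by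
  simpa using (Q_bd (μ := μ) (T := T) d t g 1 zero_le_one hC).2

/-- scaling of the limit superior -/
lemma ls_mul {u : ℕ → ℝ} {B : ℝ} (h0 : ∀ n, 0 ≤ u n) (hb : ∀ n, u n ≤ B) {c : ℝ} (hc : 0 ≤ c) :
    limsup (fun n => c * u n) atTop = c * limsup u atTop := by
  rcases hc.eq_or_lt with rfl | hc'
  · simp
  have hB0 : 0 ≤ B := (h0 0).trans (hb 0)
  apply le_antisymm
  · refine ls_le (fun n => mul_nonneg hc (h0 n)) fun δ hδ => ?_
    filter_upwards [ls_ev hb (div_pos hδ hc')] with n hn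
    have := mul_le_mul_of_nonneg_left hn hc
    rw [mul_add, mul_div_cancel₀ _ hc'.ne'] at this
    exact this
  · have h1 : limsup u atTop ≤ c⁻¹ * limsup (fun n => c * u n) atTop := by
      refine ls_le h0 fun δ hδ => ?_
      filter_upwards [ls_ev (u := fun n => c * u n) (B := c * B)
        (fun n => mul_le_mul_of_nonneg_left (hb n) hc) (mul_pos hc' hδ)] with n hn
      have h2 : u n = c⁻¹ * (c * u n) := by field_simp
      rw [h2]
      calc c⁻¹ * (c * u n) ≤ c⁻¹ * (limsup (fun n => c * u n) atTop + c * δ) := by gcongr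
        _ = _ := by rw [mul_add]; congr 1; field_simp
    calc c * limsup u atTop ≤ c * (c⁻¹ * limsup (fun n => c * u n) atTop) := by gcongr
      _ = _ := by field_simp

lemma Q_smul (d : ℤ) (t : ℕ) : ∀ (g : X → ℂ) (C : ℝ), 0 ≤ C → (∀ x, ‖g x‖ ≤ C) → ∀ c : ℂ,
    Q μ T d t (fun x => c * g x) = ‖c‖ ^ 2 ^ (t + 1) * Q μ T d t g := by
  induction t with
  | zero =>
    intro g C hC0 hC c
    have h0 : ∀ K : ℕ, 0 ≤ ∫ x, ‖Av T d K g x‖ ^ 2 ∂μ := fun K =>
      integral_nonneg fun x => by positivity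
    have h1 : ∀ K : ℕ, ∫ x, ‖Av T d K g x‖ ^ 2 ∂μ ≤ C ^ 2 := by
      intro K
      have h2 := norm_integral_le_of_norm_le_const (μ := μ) (C := C ^ 2)
        (f := fun x => ‖Av T d K g x‖ ^ 2) (Eventually.of_forall fun x => by
          rw [Real.norm_of_nonneg (by positivity)]
          exact pow_le_pow_left₀ (norm_nonneg _) (norm_Av_le hC0 hC d K x) 2)
      rw [Real.norm_of_nonneg (h0 K)] at h2
      simpa using h2
    simp only [Q]
    rw [← ls_mul h0 h1 (by positivity)]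
    congr 1
    funext K
    rw [← integral_const_mul]
    congr 1
    funext x
    have : Av T d K (fun x => c * g x) x = c * Av T d K g x := by
      unfold Av
      rw [← Finset.mul_sum]
      ring
    rw [this, norm_mul, mul_pow]
    simp
  | succ t ih =>
    intro g C hC0 hC c
    have h2 : ∀ r : ℤ, 0 ≤ Q μ T d t (Dl T r g) ∧ Q μ T d t (Dl T r g) ≤ C ^ 2 ^ (t + 1 + 1) := by
      intro r
      obtain ⟨e1, e2⟩ := Q_bd (μ := μ) (T := T) d t (Dl T r g) (C * C) (by positivity) (norm_Dl_le hC r)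
      refine ⟨e1, e2.trans (le_of_eq ?_)⟩
      rw [← sq, ← pow_mul]
      congr 1
      ring
    have h0 : ∀ R : ℕ, 0 ≤ (R : ℝ)⁻¹ * ∑ r ∈ range R, Q μ T d t (Dl T r g) := fun R =>
      mul_nonneg (by positivity) (Finset.sum_nonneg fun r _ => (h2 r).1)
    have h1 : ∀ R : ℕ, (R : ℝ)⁻¹ * ∑ r ∈ range R, Q μ T d t (Dl T r g) ≤ C ^ 2 ^ (t + 1 + 1) := by
      intro R
      rcases Nat.eq_zero_or_pos R with rfl | hR
      · simp
        positivity
      have hR' : (0 : ℝ) < R := by exact_mod_cast hR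
      rw [inv_mul_le_iff₀ hR']
      refine (Finset.sum_le_sum fun (r : ℕ) _ => (h2 (r : ℤ)).2).trans ?_
      rw [Finset.sum_const, Finset.card_range, nsmul_eq_mul]
    simp only [Q]
    rw [← ls_mul h0 h1 (by positivity)]
    congr 1
    funext R
    have h3 : ∀ r : ℤ, Q μ T d t (Dl T r (fun x => c * g x)) = ‖c‖ ^ 2 ^ (t + 1 + 1) * Q μ T d t (Dl T r g) := by
      intro r
      have h4 : Dl T r (fun x => c * g x) = fun x => (c * conj c) * Dl T r g x := by
        funext x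
        unfold Dl
        rw [map_mul]
        ring
      rw [h4, ih (Dl T r g) (C * C) (by positivity) (norm_Dl_le hC r) (c * conj c)]
      congr 1
      rw [norm_mul, RCLike.norm_conj, ← sq, ← pow_mul]
      congr 1
      ring
    simp only [h3]
    rw [← Finset.mul_sum]
    ring

/-- the integer powers as measurable equivalences -/
def Se (T : X ≃ᵐ X) (z : ℤ) : X ≃ᵐ X where
  toEquiv := (T.toEquiv : Equiv.Perm X) ^ z
  measurable_toFun := S_meas T z
  measurable_invFun := by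
    have : ⇑((T.toEquiv : Equiv.Perm X) ^ z).symm = S T (-z) := by
      funext x
      unfold S
      rw [zpow_neg]
      rfl
    rw [this]
    exact S_meas T (-z)

lemma int_S (hT : MeasurePreserving T μ μ) (z : ℤ) {E : Type*} [NormedAddCommGroup E] [NormedSpace ℝ E]
    (F : X → E) : ∫ x, F (S T z x) ∂μ = ∫ x, F x ∂μ :=
  MeasurePreserving.integral_comp' (f := Se T z) (S_mp hT z) F

lemma Dl_S (r z : ℤ) (g : X → ℂ) : Dl T r (fun x => g (S T z x)) = fun x => Dl T r g (S T z x) := by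
  funext x
  unfold Dl
  simp only
  rw [← S_add, ← S_add, add_comm]

lemma Q_S (hT : MeasurePreserving T μ μ) (d z : ℤ) (t : ℕ) : ∀ g : X → ℂ,
    Q μ T d t (fun x => g (S T z x)) = Q μ T d t g := by
  induction t with
  | zero =>
    intro g
    simp only [Q]
    congr 1
    funext K
    rw [← int_S hT z (fun x => ‖Av T d K g x‖ ^ 2)]
    congr 1
    funext x
    have : Av T d K (fun x => g (S T z x)) x = Av T d K g (S T z x) := by
      unfold Av
      congr 1
      refine Finset.sum_congr rfl fun k _ => ?_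
      simp only
      rw [← S_add, ← S_add, add_comm]
    rw [this]
  | succ t ih =>
    intro g
    simp only [Q]
    congr 1
    funext R
    congr 1
    refine Finset.sum_congr rfl fun r _ => ?_
    rw [Dl_S, ih]

lemma Q_conj (d : ℤ) (t : ℕ) : ∀ g : X → ℂ, Q μ T d t (fun x => conj (g x)) = Q μ T d t g := by
  induction t with
  | zero =>
    intro g
    simp only [Q]
    congr 1
    funext K
    congr 1
    funext x
    have : Av T d K (fun x => conj (g x)) x = conj (Av T d K g x) := by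
      unfold Av
      rw [map_mul, map_inv₀, Complex.conj_natCast, map_sum]
    rw [this, RCLike.norm_conj]
  | succ t ih =>
    intro g
    simp only [Q]
    congr 1
    funext R
    congr 1
    refine Finset.sum_congr rfl fun r _ => ?_
    have : Dl T r (fun x => conj (g x)) = fun x => conj (Dl T r g x) := by
      funext x
      unfold Dl
      rw [map_mul]
    rw [this, ih]

lemma Q_Dl_neg (hT : MeasurePreserving T μ μ) (d r : ℤ) (t : ℕ) (g : X → ℂ) :
    Q μ T d t (Dl T (-r) g) = Q μ T d t (Dl T r g) := by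
  have h : Dl T (-r) g = fun x => conj ((fun y => Dl T r g (S T (-r) y)) x) := by
    funext x
    unfold Dl
    simp only
    rw [← S_add, add_neg_cancel, S_zero, map_mul, RCLike.conj_conj, mul_comm]
  rw [h, Q_conj, Q_S hT]

/-- pair averages of the seminorms of the `Dl` -/
lemma avg_Dl (hT : MeasurePreserving T μ μ) (d : ℤ) (t : ℕ) {e : ℤ} (he : e ≠ 0) {g : X → ℂ}
    (hg : ∀ x, ‖g x‖ ≤ 1) {η : ℝ} (hη : 0 < η) :
    ∀ᶠ K : ℕ in atTop, ((K : ℝ) ^ 2)⁻¹ * ∑ k ∈ range K, ∑ k' ∈ range K, Q μ T d t (Dl T (e * ((k' : ℤ) - k)) g)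
      ≤ 2 * (e.natAbs + 1) * (Q μ T d (t + 1) g + η) := by
  have h0 : ∀ r : ℤ, 0 ≤ Q μ T d t (Dl T r g) := fun r => Q_nonneg d t (norm_Dl_le1 hg r)
  have h1 : ∀ r : ℤ, Q μ T d t (Dl T r g) ≤ 1 := fun r => Q_le_one d t (norm_Dl_le1 hg r)
  have hb : ∀ R : ℕ, (R : ℝ)⁻¹ * ∑ r ∈ range R, Q μ T d t (Dl T r g) ≤ 1 := by
    intro R
    rcases Nat.eq_zero_or_pos R with rfl | hR
    · simp
    have hR' : (0 : ℝ) < R := by exact_mod_cast hR
    rw [inv_mul_le_iff₀ hR']
    refine (Finset.sum_le_sum fun (r : ℕ) _ => h1 (r : ℤ)).trans ?_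
    rw [Finset.sum_const, Finset.card_range, nsmul_eq_mul]
  have hev := ls_ev hb hη
  obtain ⟨R0, hR0⟩ := Filter.eventually_atTop.1 hev
  rw [Filter.eventually_atTop]
  refine ⟨R0 + 1, fun K hK => ?_⟩
  have hKp : 0 < K := by omega
  have hK' : (0 : ℝ) < K := by exact_mod_cast hKp
  obtain ⟨q, hq⟩ : ∃ q : ℝ, q = Q μ T d (t + 1) g + η := ⟨_, rfl⟩
  have hq0 : 0 ≤ q := by
    rw [hq]
    have := Q_nonneg (μ := μ) (T := T) d (t + 1) hg
    linarith
  have hin : ∀ k ∈ range K, ∑ k' ∈ range K, Q μ T d t (Dl T (e * ((k' : ℤ) - k)) g)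
      ≤ 2 * ((e.natAbs + 1 : ℕ) * K) * q := by
    intro k hk
    have g1 := sum_inj_le (ψ := fun r : ℤ => Q μ T d t (Dl T r g)) h0 (N := K) (m := e.natAbs * K)
      (F := fun k' : ℕ => e * ((k' : ℤ) - k)) (fun i j hij => by
        have h5 : e * ((i : ℤ) - j) = 0 := by linear_combination hij
        rcases mul_eq_zero.1 h5 with h6 | h6
        · exact absurd h6 he
        · omega) (fun i hi => by
        rw [abs_mul]
        push_cast
        have h7 : |(i : ℤ) - k| ≤ K := by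
          have := Finset.mem_range.1 hk
          rw [abs_le]
          constructor <;> omega
        exact mul_le_mul_of_nonneg_left h7 (abs_nonneg e))
    refine g1.trans ?_
    have g2 : ∑ j ∈ range (e.natAbs * K + 1), ((fun r : ℤ => Q μ T d t (Dl T r g)) (j : ℤ)
        + (fun r : ℤ => Q μ T d t (Dl T r g)) (-(j : ℤ)))
        = 2 * ∑ j ∈ range (e.natAbs * K + 1), Q μ T d t (Dl T (j : ℤ) g) := by
      rw [Finset.mul_sum]
      refine Finset.sum_congr rfl fun j _ => ?_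
      simp only
      rw [Q_Dl_neg hT]
      ring
    rw [g2]
    have hepos : 0 < e.natAbs := Int.natAbs_pos.2 he
    have g3 := hR0 (e.natAbs * K + 1) (by nlinarith)
    have hp : (0 : ℝ) < ((e.natAbs * K + 1 : ℕ) : ℝ) := by positivity
    rw [inv_mul_le_iff₀ hp] at g3
    have g3' : ∑ j ∈ range (e.natAbs * K + 1), Q μ T d t (Dl T (j : ℤ) g) ≤ ((e.natAbs * K + 1 : ℕ) : ℝ) * q := by
      rw [hq]
      exact g3
    have g4 : ((e.natAbs * K + 1 : ℕ) : ℝ) ≤ ((e.natAbs + 1 : ℕ) : ℝ) * K := by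
      have : e.natAbs * K + 1 ≤ (e.natAbs + 1) * K := by nlinarith
      exact_mod_cast this
    have g5 := mul_le_mul_of_nonneg_right g4 hq0
    linarith
  have h3 := Finset.sum_le_sum hin
  rw [Finset.sum_const, Finset.card_range, nsmul_eq_mul] at h3
  calc ((K : ℝ) ^ 2)⁻¹ * ∑ k ∈ range K, ∑ k' ∈ range K, Q μ T d t (Dl T (e * ((k' : ℤ) - k)) g)
      ≤ ((K : ℝ) ^ 2)⁻¹ * (K * (2 * ((e.natAbs + 1 : ℕ) * K) * q)) := by gcongr
    _ = 2 * (e.natAbs + 1) * q := by
      push_cast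
      field_simp
    _ = _ := by rw [hq]

end basic

end Pool.Agent.V8H53.Sta
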