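import Mathlib

/-!
# Averages over rectangles and the inequality of van der Corput along a direction
-/

set_option autoImplicit false

open Finset Filter Topology ComplexConjugate

namespace Pool.Agent.V8H53.Sta

/-- The average of `G` over the rectangle `[v, v + N) × [u, u + H)`. -/
noncomputable def D (G : ℤ → ℤ → ℂ) (v u : ℤ) (N H : ℕ) : ℂ :=
  (N : ℂ)⁻¹ * ((H : ℂ)⁻¹ * ∑ n ∈ range N, ∑ h ∈ range H, G (v + n) (u + h))

lemma norm_sum_shift_nat (F : ℤ → ℂ) (B : ℝ) (hF : ∀ z, ‖F z‖ ≤ B) (v : ℤ) (N p : ℕ) :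
    ‖(∑ i ∈ range N, F (v + p + i)) - ∑ i ∈ range N, F (v + i)‖ ≤ 2 * B * p := by
  induction p with
  | zero => simp
  | succ p ih =>
    have h1 : (∑ i ∈ range N, F (v + (p + 1 : ℕ) + i)) - ∑ i ∈ range N, F (v + p + i)
        = F (v + p + N) - F (v + p) := by
      have := Finset.sum_range_sub (fun i : ℕ => F (v + p + i)) N
      rw [Finset.sum_sub_distrib] at this
      simp only [Nat.cast_zero, add_zero] at this
      rw [← this]
      congr 1
      refine Finset.sum_congr rfl fun i _ => ?_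
      congr 1
      push_cast
      ring
    have h2 : (∑ i ∈ range N, F (v + (p + 1 : ℕ) + i)) - ∑ i ∈ range N, F (v + i)
        = (F (v + p + N) - F (v + p)) + ((∑ i ∈ range N, F (v + p + i)) - ∑ i ∈ range N, F (v + i)) := by
      rw [← h1]
      ring
    rw [h2]
    refine (norm_add_le _ _).trans ?_
    have h3 : ‖F (v + p + N) - F (v + p)‖ ≤ B + B := (norm_sub_le _ _).trans (add_le_add (hF _) (hF _))
    push_cast
    linarith

lemma norm_sum_shift (F : ℤ → ℂ) (B : ℝ) (hF : ∀ z, ‖F z‖ ≤ B) (v p : ℤ) (N : ℕ) :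
    ‖(∑ i ∈ range N, F (v + p + i)) - ∑ i ∈ range N, F (v + i)‖ ≤ 2 * B * |(p : ℝ)| := by
  rcases Int.le_total 0 p with hp | hp
  · obtain ⟨q, rfl⟩ := Int.eq_ofNat_of_zero_le hp
    have := norm_sum_shift_nat F B hF v N q
    simpa using this
  · obtain ⟨q, hq⟩ := Int.eq_ofNat_of_zero_le (a := -p) (by omega)
    have hp' : p = -(q : ℤ) := by omega
    subst hp'
    have := norm_sum_shift_nat F B hF (v + -(q : ℤ)) N q
    rw [norm_sub_rev]
    have h2 : ∀ i : ℕ, v + -(q : ℤ) + (q : ℤ) + i = v + i := fun i => by ring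
    simp only [h2] at this
    simpa using this

lemma norm_D_le {G : ℤ → ℤ → ℂ} {B : ℝ} (hB : 0 ≤ B) (hG : ∀ n h, ‖G n h‖ ≤ B) (v u : ℤ)
    (N H : ℕ) : ‖D G v u N H‖ ≤ B := by
  rcases Nat.eq_zero_or_pos N with rfl | hN
  · simpa [D] using hB
  rcases Nat.eq_zero_or_pos H with rfl | hH
  · simpa [D] using hB
  have hN' : (0 : ℝ) < N := by exact_mod_cast hN
  have hH' : (0 : ℝ) < H := by exact_mod_cast hH
  unfold D
  rw [norm_mul, norm_mul, norm_inv, norm_inv, Complex.norm_natCast, Complex.norm_natCast]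
  have h1 : ‖∑ n ∈ range N, ∑ h ∈ range H, G (v + n) (u + h)‖ ≤ N * (H * B) := by
    refine (norm_sum_le _ _).trans ?_
    refine (Finset.sum_le_sum (g := fun _ => (H : ℝ) * B) fun n _ => ?_).trans ?_
    · refine (norm_sum_le _ _).trans ?_
      refine (Finset.sum_le_sum (g := fun _ => B) fun h _ => hG _ _).trans ?_
      simp
    · simp
  have h2 : (N : ℝ)⁻¹ * ((H : ℝ)⁻¹ * ‖∑ n ∈ range N, ∑ h ∈ range H, G (v + n) (u + h)‖)
      ≤ (N : ℝ)⁻¹ * ((H : ℝ)⁻¹ * (N * (H * B))) := by gcongr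
  refine h2.trans (le_of_eq ?_)
  field_simp

lemma D_sub (G₁ G₂ : ℤ → ℤ → ℂ) (v u : ℤ) (N H : ℕ) :
    D G₁ v u N H - D G₂ v u N H = D (fun n h => G₁ n h - G₂ n h) v u N H := by
  unfold D
  simp only [Finset.sum_sub_distrib]
  ring

lemma D_add (G₁ G₂ : ℤ → ℤ → ℂ) (v u : ℤ) (N H : ℕ) :
    D (fun n h => G₁ n h + G₂ n h) v u N H = D G₁ v u N H + D G₂ v u N H := by
  unfold D
  simp only [Finset.sum_add_distrib]
  ring

lemma D_sum {ι : Type*} (s : Finset ι) (G : ι → ℤ → ℤ → ℂ) (v u : ℤ) (N H : ℕ) :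
    D (fun n h => ∑ i ∈ s, G i n h) v u N H = ∑ i ∈ s, D (G i) v u N H := by
  unfold D
  rw [← Finset.mul_sum, ← Finset.mul_sum]
  congr 2
  rw [Finset.sum_comm (s := s)]
  refine Finset.sum_congr rfl fun n _ => ?_
  rw [Finset.sum_comm (s := s)]

lemma D_const_mul (c : ℂ) (G : ℤ → ℤ → ℂ) (v u : ℤ) (N H : ℕ) :
    D (fun n h => c * G n h) v u N H = c * D G v u N H := by
  unfold D
  simp only [← Finset.mul_sum]
  ring

lemma norm_D_shift {G : ℤ → ℤ → ℂ} {B : ℝ} (hG : ∀ n h, ‖G n h‖ ≤ B) (v u p q : ℤ)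
    {N H : ℕ} (hN : 0 < N) (hH : 0 < H) :
    ‖D (fun n h => G (n + p) (h + q)) v u N H - D G v u N H‖
      ≤ 2 * B * |(p : ℝ)| / N + 2 * B * |(q : ℝ)| / H := by
  have hB : 0 ≤ B := (norm_nonneg _).trans (hG 0 0)
  have hN' : (0 : ℝ) < N := by exact_mod_cast hN
  have hH' : (0 : ℝ) < H := by exact_mod_cast hH
  have h1 : ‖D (fun n h => G (n + p) (h + q)) v u N H - D (fun n h => G n (h + q)) v u N H‖
      ≤ 2 * B * |(p : ℝ)| / N := by
    unfold D
    rw [← mul_sub, ← mul_sub, norm_mul, norm_mul, norm_inv, norm_inv, Complex.norm_natCast,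
      Complex.norm_natCast, Finset.sum_comm, Finset.sum_comm (s := range N), ← Finset.sum_sub_distrib]
    have : ‖∑ h ∈ range H, ((∑ n ∈ range N, G (v + n + p) (u + h + q))
        - ∑ n ∈ range N, G (v + n) (u + h + q))‖ ≤ H * (2 * B * |(p : ℝ)|) := by
      refine (norm_sum_le _ _).trans ?_
      refine (Finset.sum_le_sum (g := fun _ => 2 * B * |(p : ℝ)|) fun h _ => ?_).trans ?_
      · have := norm_sum_shift (fun z => G z (u + h + q)) B (fun z => hG _ _) v p N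
        have h3 : ∀ n : ℕ, v + (n : ℤ) + p = v + p + n := fun n => by ring
        simp only [h3]
        exact this
      · simp
    have h2 : (N : ℝ)⁻¹ * ((H : ℝ)⁻¹ * ‖∑ h ∈ range H, ((∑ n ∈ range N, G (v + n + p) (u + h + q))
        - ∑ n ∈ range N, G (v + n) (u + h + q))‖) ≤ (N : ℝ)⁻¹ * ((H : ℝ)⁻¹ * (H * (2 * B * |(p : ℝ)|))) := by
      gcongr
    refine h2.trans (le_of_eq ?_)
    field_simp
  have h2 : ‖D (fun n h => G n (h + q)) v u N H - D G v u N H‖ ≤ 2 * B * |(q : ℝ)| / H := by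
    unfold D
    rw [← mul_sub, ← mul_sub, norm_mul, norm_mul, norm_inv, norm_inv, Complex.norm_natCast,
      Complex.norm_natCast, ← Finset.sum_sub_distrib]
    have : ‖∑ n ∈ range N, ((∑ h ∈ range H, G (v + n) (u + h + q))
        - ∑ h ∈ range H, G (v + n) (u + h))‖ ≤ N * (2 * B * |(q : ℝ)|) := by
      refine (norm_sum_le _ _).trans ?_
      refine (Finset.sum_le_sum (g := fun _ => 2 * B * |(q : ℝ)|) fun n _ => ?_).trans ?_
      · have := norm_sum_shift (fun z => G (v + n) z) B (fun z => hG _ _) u q H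
        have h3 : ∀ h : ℕ, u + (h : ℤ) + q = u + q + h := fun h => by ring
        simp only [h3]
        exact this
      · simp
    have h2 : (N : ℝ)⁻¹ * ((H : ℝ)⁻¹ * ‖∑ n ∈ range N, ((∑ h ∈ range H, G (v + n) (u + h + q))
        - ∑ h ∈ range H, G (v + n) (u + h))‖) ≤ (N : ℝ)⁻¹ * ((H : ℝ)⁻¹ * (N * (2 * B * |(q : ℝ)|))) := by
      gcongr
    refine h2.trans (le_of_eq ?_)
    field_simp
  calc ‖D (fun n h => G (n + p) (h + q)) v u N H - D G v u N H‖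
      = ‖(D (fun n h => G (n + p) (h + q)) v u N H - D (fun n h => G n (h + q)) v u N H)
        + (D (fun n h => G n (h + q)) v u N H - D G v u N H)‖ := by congr 1; ring
    _ ≤ _ := (norm_add_le _ _).trans (add_le_add h1 h2)

lemma norm_sq_D_le {W Y : ℤ → ℤ → ℂ} (hW : ∀ n h, ‖W n h‖ ≤ 1) (v u : ℤ) {N H : ℕ} (hN : 0 < N)
    (hH : 0 < H) :
    ‖D (fun n h => W n h * Y n h) v u N H‖ ^ 2 ≤ ‖D (fun n h => Y n h * conj (Y n h)) v u N H‖ := by
  have hN' : (0 : ℝ) < N := by exact_mod_cast hN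
  have hH' : (0 : ℝ) < H := by exact_mod_cast hH
  have h1 : D (fun n h => Y n h * conj (Y n h)) v u N H
      = (((N : ℝ)⁻¹ * ((H : ℝ)⁻¹ * ∑ n ∈ range N, ∑ h ∈ range H, ‖Y (v + n) (u + h)‖ ^ 2) : ℝ) : ℂ) := by
    have : ∀ n h : ℤ, Y n h * conj (Y n h) = ((‖Y n h‖ ^ 2 : ℝ) : ℂ) := fun n h => by
      rw [Complex.mul_conj, Complex.normSq_eq_norm_sq]
    unfold D
    simp only [this]
    rw [Complex.ofReal_mul, Complex.ofReal_mul, Complex.ofReal_sum]
    simp only [Complex.ofReal_sum, Complex.ofReal_inv, Complex.ofReal_natCast]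
  have h0 : 0 ≤ (N : ℝ)⁻¹ * ((H : ℝ)⁻¹ * ∑ n ∈ range N, ∑ h ∈ range H, ‖Y (v + n) (u + h)‖ ^ 2) := by
    positivity
  rw [h1, Complex.norm_real, Real.norm_of_nonneg h0]
  have h2 : ‖D (fun n h => W n h * Y n h) v u N H‖
      ≤ (N : ℝ)⁻¹ * ((H : ℝ)⁻¹ * ∑ p ∈ range N ×ˢ range H, ‖Y (v + p.1) (u + p.2)‖) := by
    unfold D
    rw [norm_mul, norm_mul, norm_inv, norm_inv, Complex.norm_natCast, Complex.norm_natCast]
    gcongr
    rw [Finset.sum_product]
    refine (norm_sum_le _ _).trans (Finset.sum_le_sum fun n _ => ?_)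
    refine (norm_sum_le _ _).trans (Finset.sum_le_sum fun h _ => ?_)
    rw [norm_mul]
    exact mul_le_of_le_one_left (norm_nonneg _) (hW _ _)
  have h3 := sq_sum_le_card_mul_sum_sq (s := range N ×ˢ range H)
    (f := fun p : ℕ × ℕ => ‖Y (v + p.1) (u + p.2)‖)
  rw [Finset.card_product, Finset.card_range, Finset.card_range] at h3
  have h4 : ∑ p ∈ range N ×ˢ range H, ‖Y (v + p.1) (u + p.2)‖ ^ 2
      = ∑ n ∈ range N, ∑ h ∈ range H, ‖Y (v + n) (u + h)‖ ^ 2 := Finset.sum_product _ _ _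
  rw [h4, Nat.cast_mul] at h3
  calc ‖D (fun n h => W n h * Y n h) v u N H‖ ^ 2
      ≤ ((N : ℝ)⁻¹ * ((H : ℝ)⁻¹ * ∑ p ∈ range N ×ˢ range H, ‖Y (v + p.1) (u + p.2)‖)) ^ 2 := by
        gcongr
    _ = ((N : ℝ)⁻¹ * (H : ℝ)⁻¹) ^ 2 * (∑ p ∈ range N ×ˢ range H, ‖Y (v + p.1) (u + p.2)‖) ^ 2 := by
        ring
    _ ≤ ((N : ℝ)⁻¹ * (H : ℝ)⁻¹) ^ 2 * ((N * H : ℝ) * ∑ n ∈ range N, ∑ h ∈ range H,
          ‖Y (v + n) (u + h)‖ ^ 2) := by gcongr
    _ = _ := by
        field_simp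

/-- The correlation function of `V` at `(q, -c q)`. -/
noncomputable def Cor (V : ℤ → ℤ → ℂ) (c q : ℤ) : ℤ → ℤ → ℂ :=
  fun n h => V n h * conj (V (n + q) (h + -(c * q)))

lemma norm_Cor_le {V : ℤ → ℤ → ℂ} (hV : ∀ n h, ‖V n h‖ ≤ 1) (c q n h : ℤ) : ‖Cor V c q n h‖ ≤ 1 := by
  unfold Cor
  rw [norm_mul, RCLike.norm_conj]
  exact mul_le_one₀ (hV _ _) (norm_nonneg _) (hV _ _)

/-- The mean of the shifts of `V` by `(k, -c k)`, `k < K`. -/
noncomputable def Me (V : ℤ → ℤ → ℂ) (c : ℤ) (K : ℕ) : ℤ → ℤ → ℂ :=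
  fun n h => (K : ℂ)⁻¹ * ∑ k ∈ range K, V (n + k) (h + -(c * k))

lemma norm_Me_le {V : ℤ → ℤ → ℂ} (hV : ∀ n h, ‖V n h‖ ≤ 1) (c : ℤ) {K : ℕ} (hK : 0 < K) (n h : ℤ) :
    ‖Me V c K n h‖ ≤ 1 := by
  have hK' : (0 : ℝ) < K := by exact_mod_cast hK
  unfold Me
  rw [norm_mul, norm_inv, Complex.norm_natCast]
  have : ‖∑ k ∈ range K, V (n + k) (h + -(c * k))‖ ≤ K := by
    refine (norm_sum_le _ _).trans ?_
    refine (Finset.sum_le_sum (g := fun _ => (1 : ℝ)) fun k _ => hV _ _).trans ?_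
    simp
  calc (K : ℝ)⁻¹ * ‖∑ k ∈ range K, V (n + k) (h + -(c * k))‖ ≤ (K : ℝ)⁻¹ * K := by gcongr
    _ = 1 := by field_simp

lemma D_Me (V : ℤ → ℤ → ℂ) (c : ℤ) (K : ℕ) (v u : ℤ) (N H : ℕ) :
    D (fun n h => Me V c K n h * conj (Me V c K n h)) v u N H
      = ((K : ℂ) ^ 2)⁻¹ * ∑ k ∈ range K, ∑ k' ∈ range K,
        D (fun n h => Cor V c ((k' : ℤ) - k) (n + k) (h + -(c * k))) v u N H := by
  have h1 : ∀ (k k' : ℕ) (n h : ℤ), Cor V c ((k' : ℤ) - k) (n + k) (h + -(c * k))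
      = V (n + k) (h + -(c * k)) * conj (V (n + k') (h + -(c * k'))) := by
    intro k k' n h
    unfold Cor
    have e1 : n + (k : ℤ) + ((k' : ℤ) - k) = n + k' := by ring
    have e2 : h + -(c * (k : ℤ)) + -(c * ((k' : ℤ) - k)) = h + -(c * k') := by ring
    rw [e1, e2]
  simp only [h1]
  have h2 : ∀ n h : ℤ, Me V c K n h * conj (Me V c K n h)
      = ((K : ℂ) ^ 2)⁻¹ * ∑ k ∈ range K, ∑ k' ∈ range K,
        V (n + k) (h + -(c * k)) * conj (V (n + k') (h + -(c * k'))) := by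
    intro n h
    unfold Me
    rw [map_mul, map_inv₀, Complex.conj_natCast, map_sum, ← Finset.sum_mul_sum, inv_eq_one_div,
      inv_eq_one_div]
    ring
  simp only [h2]
  rw [D_const_mul]
  congr 1
  rw [D_sum]
  refine Finset.sum_congr rfl fun k _ => ?_
  rw [D_sum]

lemma norm_D_sh {c : ℤ} {N H K : ℕ} (hN : 0 < N) (hH : 0 < H) {G : ℤ → ℤ → ℂ}
    (hG : ∀ n h, ‖G n h‖ ≤ 1) (v u : ℤ) {k : ℕ} (hk : k ∈ range K) :
    ‖D (fun n h => G (n + k) (h + -(c * k))) v u N H - D G v u N H‖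
      ≤ 2 * K / N + 2 * |(c : ℝ)| * K / H := by
  have hN' : (0 : ℝ) < N := by exact_mod_cast hN
  have hH' : (0 : ℝ) < H := by exact_mod_cast hH
  have h1 := norm_D_shift hG v u k (-(c * k)) hN hH
  refine h1.trans ?_
  have hk' : (k : ℝ) ≤ K := by exact_mod_cast (Finset.mem_range.1 hk).le
  have h2 : |((k : ℤ) : ℝ)| = k := by simp
  have h3 : |((-(c * (k : ℤ)) : ℤ) : ℝ)| = |(c : ℝ)| * k := by
    push_cast
    rw [abs_neg, abs_mul]
    simp
  rw [h2, h3]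
  have h4 : 2 * 1 * (k : ℝ) / N ≤ 2 * K / N := by
    have : 2 * 1 * (k : ℝ) ≤ 2 * K := by linarith
    gcongr
  have h5 : 2 * 1 * (|(c : ℝ)| * k) / H ≤ 2 * |(c : ℝ)| * K / H := by
    have : 2 * 1 * (|(c : ℝ)| * k) ≤ 2 * |(c : ℝ)| * K := by
      have := mul_le_mul_of_nonneg_left hk' (abs_nonneg (c : ℝ))
      linarith
    gcongr
  linarith

/-- **Van der Corput along the direction `(1, -c)`**, before the square is opened. -/
lemma vdc0 {W V : ℤ → ℤ → ℂ} (hW : ∀ n h, ‖W n h‖ ≤ 1) (hV : ∀ n h, ‖V n h‖ ≤ 1) (c : ℤ)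
    (hc : ∀ n h k, W (n + k) (h + -(c * k)) = W n h) (v u : ℤ) {N H K : ℕ} (hN : 0 < N)
    (hH : 0 < H) (hK : 0 < K) :
    ‖D (fun n h => W n h * V n h) v u N H‖ ^ 2
      ≤ ‖D (fun n h => Me V c K n h * conj (Me V c K n h)) v u N H‖
        + 2 * (2 * K / N + 2 * |(c : ℝ)| * K / H) := by
  have hN' : (0 : ℝ) < N := by exact_mod_cast hN
  have hH' : (0 : ℝ) < H := by exact_mod_cast hH
  have hK' : (0 : ℝ) < K := by exact_mod_cast hK
  obtain ⟨e, he⟩ : ∃ e : ℝ, e = 2 * K / N + 2 * |(c : ℝ)| * K / H := ⟨_, rfl⟩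
  have he0 : 0 ≤ e := by rw [he]; positivity
  have hshift : ∀ (G : ℤ → ℤ → ℂ), (∀ n h, ‖G n h‖ ≤ 1) → ∀ k ∈ range K,
      ‖D (fun n h => G (n + k) (h + -(c * k))) v u N H - D G v u N H‖ ≤ e := by
    intro G hG k hk
    rw [he]
    exact norm_D_sh hN hH hG v u hk
  rw [← he]
  -- step 1
  have s1 : ‖D (fun n h => W n h * V n h) v u N H - D (fun n h => W n h * Me V c K n h) v u N H‖ ≤ e := by
    have h0 : ∀ n h : ℤ, W n h * Me V c K n h
        = (K : ℂ)⁻¹ * ∑ k ∈ range K, W (n + k) (h + -(c * k)) * V (n + k) (h + -(c * k)) := by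
      intro n h
      simp only [hc]
      rw [← Finset.mul_sum]
      unfold Me
      ring
    have h1 : D (fun n h => W n h * Me V c K n h) v u N H
        = (K : ℂ)⁻¹ * ∑ k ∈ range K, D (fun n h => W (n + k) (h + -(c * k)) * V (n + k) (h + -(c * k))) v u N H := by
      simp only [h0]
      rw [D_const_mul, D_sum]
    have h2 : D (fun n h => W n h * V n h) v u N H
        = (K : ℂ)⁻¹ * ∑ k ∈ range K, D (fun n h => W n h * V n h) v u N H := by
      rw [Finset.sum_const, Finset.card_range, nsmul_eq_mul, ← mul_assoc, inv_mul_cancel₀, one_mul]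
      exact_mod_cast hK.ne'
    rw [h1]
    conv_lhs => rw [h2]
    rw [← mul_sub, ← Finset.sum_sub_distrib, norm_mul, norm_inv, Complex.norm_natCast]
    have h3 : ‖∑ k ∈ range K, (D (fun n h => W n h * V n h) v u N H
        - D (fun n h => W (n + k) (h + -(c * k)) * V (n + k) (h + -(c * k))) v u N H)‖ ≤ K * e := by
      refine (norm_sum_le _ _).trans ?_
      refine (Finset.sum_le_sum (g := fun _ => e) fun k hk => ?_).trans ?_
      · rw [norm_sub_rev]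
        refine hshift (fun n h => W n h * V n h) (fun n h => ?_) k hk
        rw [norm_mul]
        exact mul_le_one₀ (hW _ _) (norm_nonneg _) (hV _ _)
      · simp
    calc (K : ℝ)⁻¹ * _ ≤ (K : ℝ)⁻¹ * (K * e) := by gcongr
      _ = e := by field_simp
  have hWVb : ‖D (fun n h => W n h * V n h) v u N H‖ ≤ 1 := norm_D_le zero_le_one (fun n h => by
    rw [norm_mul]; exact mul_le_one₀ (hW _ _) (norm_nonneg _) (hV _ _)) v u N H
  have hWYb : ‖D (fun n h => W n h * Me V c K n h) v u N H‖ ≤ 1 := norm_D_le zero_le_one (fun n h => by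
    rw [norm_mul]; exact mul_le_one₀ (hW _ _) (norm_nonneg _) (norm_Me_le hV c hK _ _)) v u N H
  have s1' : ‖D (fun n h => W n h * V n h) v u N H‖ ^ 2
      ≤ ‖D (fun n h => W n h * Me V c K n h) v u N H‖ ^ 2 + 2 * e := by
    have h1 : ‖D (fun n h => W n h * V n h) v u N H‖ ≤ ‖D (fun n h => W n h * Me V c K n h) v u N H‖ + e := by
      have := norm_sub_norm_le (D (fun n h => W n h * V n h) v u N H) (D (fun n h => W n h * Me V c K n h) v u N H)
      linarith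
    have h2 := norm_nonneg (D (fun n h => W n h * V n h) v u N H)
    have h3 := norm_nonneg (D (fun n h => W n h * Me V c K n h) v u N H)
    nlinarith
  -- step 2
  have s2 := norm_sq_D_le (Y := Me V c K) hW v u hN hH
  linarith

/-- **Van der Corput along the direction `(1, -c)`.** -/
lemma vdc {W V : ℤ → ℤ → ℂ} (hW : ∀ n h, ‖W n h‖ ≤ 1) (hV : ∀ n h, ‖V n h‖ ≤ 1) (c : ℤ)
    (hc : ∀ n h k, W (n + k) (h + -(c * k)) = W n h) (v u : ℤ) {N H K : ℕ} (hN : 0 < N)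
    (hH : 0 < H) (hK : 0 < K) :
    ‖D (fun n h => W n h * V n h) v u N H‖ ^ 2
      ≤ ((K : ℝ) ^ 2)⁻¹ * ∑ k ∈ range K, ∑ k' ∈ range K, ‖D (Cor V c ((k' : ℤ) - k)) v u N H‖
        + 3 * (2 * K / N + 2 * |(c : ℝ)| * K / H) := by
  have hN' : (0 : ℝ) < N := by exact_mod_cast hN
  have hH' : (0 : ℝ) < H := by exact_mod_cast hH
  have hK' : (0 : ℝ) < K := by exact_mod_cast hK
  have s2 := vdc0 hW hV c hc v u hN hH hK
  obtain ⟨e, he⟩ : ∃ e : ℝ, e = 2 * K / N + 2 * |(c : ℝ)| * K / H := ⟨_, rfl⟩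
  have hshift : ∀ (G : ℤ → ℤ → ℂ), (∀ n h, ‖G n h‖ ≤ 1) → ∀ k ∈ range K,
      ‖D (fun n h => G (n + k) (h + -(c * k))) v u N H - D G v u N H‖ ≤ e := by
    intro G hG k hk
    rw [he]
    exact norm_D_sh hN hH hG v u hk
  rw [← he] at s2 ⊢
  rw [D_Me] at s2
  have s4 : ‖((K : ℂ) ^ 2)⁻¹ * ∑ k ∈ range K, ∑ k' ∈ range K,
        D (fun n h => Cor V c ((k' : ℤ) - k) (n + k) (h + -(c * k))) v u N H‖
      ≤ ((K : ℝ) ^ 2)⁻¹ * ∑ k ∈ range K, ∑ k' ∈ range K,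
          ‖D (Cor V c ((k' : ℤ) - k)) v u N H‖ + e := by
    rw [norm_mul, norm_inv, norm_pow, Complex.norm_natCast]
    have h1 : ‖∑ k ∈ range K, ∑ k' ∈ range K,
        D (fun n h => Cor V c ((k' : ℤ) - k) (n + k) (h + -(c * k))) v u N H‖
        ≤ ∑ k ∈ range K, ∑ k' ∈ range K, (‖D (Cor V c ((k' : ℤ) - k)) v u N H‖ + e) := by
      refine (norm_sum_le _ _).trans (Finset.sum_le_sum fun k hk => ?_)
      refine (norm_sum_le _ _).trans (Finset.sum_le_sum fun k' _ => ?_)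
      have h2 := hshift (Cor V c ((k' : ℤ) - k)) (norm_Cor_le hV c _) k hk
      have h3 := norm_sub_norm_le
        (D (fun n h => Cor V c ((k' : ℤ) - k) (n + k) (h + -(c * k))) v u N H)
        (D (Cor V c ((k' : ℤ) - k)) v u N H)
      linarith
    have h5 : ∑ k ∈ range K, ∑ k' ∈ range K, (‖D (Cor V c ((k' : ℤ) - k)) v u N H‖ + e)
        = (∑ k ∈ range K, ∑ k' ∈ range K, ‖D (Cor V c ((k' : ℤ) - k)) v u N H‖)
          + (K : ℝ) ^ 2 * e := by
      simp only [Finset.sum_add_distrib, Finset.sum_const, Finset.card_range, nsmul_eq_mul]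
      ring
    rw [h5] at h1
    calc ((K : ℝ) ^ 2)⁻¹ * _ ≤ ((K : ℝ) ^ 2)⁻¹ * ((∑ k ∈ range K, ∑ k' ∈ range K,
          ‖D (Cor V c ((k' : ℤ) - k)) v u N H‖) + (K : ℝ) ^ 2 * e) := by gcongr
      _ = _ := by
        rw [mul_add, ← mul_assoc (((K : ℝ) ^ 2)⁻¹) ((K : ℝ) ^ 2) e, inv_mul_cancel₀ (by positivity), one_mul]
  linarith

end Pool.Agent.V8H53.Sta
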